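import Pool.Agent.K7.H50.MZ.Phi

set_option autoImplicit false

/-! Decay of the weighted line integrals to the right of the critical line. -/

namespace Pool.Agent.K7.H50.MZ

open MeasureTheory Complex Set Filter Topology Pool.Agent.H306R2 Pool.Agent.W184 Pool.Agent.R313.FM
open scoped ENNReal

theorem decay {δ W C2 ν ρ : ℝ} (hδ : 0 < δ) (hW : 2 ≤ W) (hC2 : 1 ≤ C2) {Nf : ℝ → ℝ}
    (hN1 : ∀ᶠ U : ℝ in atTop, 1 ≤ Nf U)
    (hN : Tendsto (fun U : ℝ => Real.log (Nf U) / Real.log U) atTop (𝓝 ν))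
    (hρ : Real.exp (-(ν * δ * (1 - 3 / (2 * W)))) < ρ) :
    ∀ᶠ U : ℝ in atTop, ∀ (Q : ℂ → ℂ) (C1 a b A : ℝ), Differentiable ℂ Q → 0 ≤ C1 →
      (∀ z : ℂ, 0 ≤ z.re → ‖Q z‖ ≤ C1) →
      (∀ z : ℂ, 2 ≤ z.re → ‖riemannZeta z - Q z‖ * (Nf U) ^ z.re ≤ C2 * (Nf U) ^ 2) →
      a ≤ b → b - a ≤ U → U ≤ A → LM (Ph Q a b (2 * W)) (1 / 2) ≤ ENNReal.ofReal A →
      LM (Ph Q a b (2 * W)) (1 / 2 + δ / Real.log U) ≤ ENNReal.ofReal (ρ * A) := by
  have hlim : Tendsto (fun U : ℝ => Real.exp (δ * Real.log (2 * C2) / Real.log U -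
      Real.log (Nf U) / Real.log U * (δ * (1 - 3 / (2 * W))))) atTop
      (𝓝 (Real.exp (-(ν * δ * (1 - 3 / (2 * W)))))) := by
    refine (Real.continuous_exp.tendsto _).comp ?_
    have h1 : Tendsto (fun U : ℝ => δ * Real.log (2 * C2) / Real.log U) atTop (𝓝 0) :=
      tendsto_const_nhds.div_atTop Real.tendsto_log_atTop
    have h2 := h1.sub (hN.mul_const (δ * (1 - 3 / (2 * W))))
    rw [zero_sub] at h2
    refine h2.congr' ?_ |>.trans ?_
    · exact Eventually.of_forall fun _ => rfl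
    · rw [mul_assoc]
  filter_upwards [hlim.eventually_lt_const hρ, hN1, eventually_gt_atTop 1, eventually_ge_atTop (8 * W),
    Real.tendsto_log_atTop.eventually_ge_atTop (δ / W)] with U h1 h2 h3 h4 h5 Q C1 a b A hQ hC1 hQ1 hQ2 hab hbU hUA hLM
  have hW0 : 0 < W := by linarith
  have hU0 : 0 < U := by linarith
  have hA0 : 0 < A := by linarith
  set L := Real.log U with hL
  have hL0 : 0 < L := Real.log_pos h3
  set N := Nf U with hNdef
  have hN0 : 0 < N := by linarith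
  have hlN : 0 ≤ Real.log N := Real.log_nonneg h2
  set x := δ / L with hx
  have hx0 : 0 < x := by positivity
  have hxW : x ≤ W := by
    rw [hx, div_le_iff₀ hL0]
    rw [div_le_iff₀ hW0] at h5
    linarith
  obtain ⟨n, hn1, hn2⟩ := exists_two_pow hx0 hxW
  set W' := 2 ^ n * x with hW'
  have hW'0 : 0 < W' := by linarith
  have hB0 : (0:ℝ) < 2 * W := by linarith
  obtain ⟨C, hC⟩ := Ph_bdd hC1 hQ1 a b (B := 2 * W) (by linarith)
  -- the far line
  have hfar := LM_far (Q := Q) (a := a) (b := b) (B := 2 * W) (x := 1 / 2 + W') (N := N) (C2 := C2)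
    (by linarith) (by linarith) hB0 hab h2 (by linarith) hQ2
  set a' : ℝ := 2 * C2 * N ^ (3 / 2 - W') * U with ha'
  have ha'0 : 0 < a' := by positivity
  have hfar' : LM (Ph Q a b (2 * W)) (1 / 2 + W') ≤ ENNReal.ofReal a' := by
    refine hfar.trans (ENNReal.ofReal_le_ofReal ?_)
    rw [ha', show 2 - (1 / 2 + W') = 3 / 2 - W' by ring]
    have h6 : b - a + 4 * (2 * W) ≤ 2 * U := by linarith
    have h7 : 0 ≤ C2 * N ^ (3 / 2 - W') := by positivity
    calc C2 * N ^ (3 / 2 - W') * (b - a + 4 * (2 * W)) ≤ C2 * N ^ (3 / 2 - W') * (2 * U) := by gcongr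
      _ = _ := by ring
  have hdy := LM_dyadic (F := Ph Q a b (2 * W)) (x := 1 / 2) (W := W') (C := C) (A := A) (a := a') hW'0 hA0 ha'0
    (fun z hz1 _ => Ph_diff hQ a b _ (by linarith))
    (fun z hz1 _ => (Ph_diff hQ a b _ (by linarith)).continuousAt)
    (fun z hz1 hz2 => hC z hz1 (by linarith)) hLM hfar' n
  have e1 : W' / 2 ^ n = x := by
    rw [hW']; field_simp
  rw [e1] at hdy
  refine hdy.trans (ENNReal.ofReal_le_ofReal ?_)
  set lam : ℝ := (1 / 2 : ℝ) ^ n with hlam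
  have hlam0 : 0 < lam := by positivity
  have elam : lam = x / W' := by
    rw [hlam, hW', one_div, inv_pow]
    field_simp
  have hpow : 0 < 2 * C2 * N ^ (3 / 2 - W') := by positivity
  have h8 : a' ^ lam ≤ (2 * C2 * N ^ (3 / 2 - W')) ^ lam * A ^ lam := by
    rw [← Real.mul_rpow hpow.le hA0.le]
    refine Real.rpow_le_rpow ha'0.le ?_ hlam0.le
    rw [ha']
    exact mul_le_mul_of_nonneg_left hUA hpow.le
  have h9 : (2 * C2 * N ^ (3 / 2 - W')) ^ lam ≤ ρ := by
    refine le_trans ?_ h1.le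
    rw [Real.rpow_def_of_pos hpow, Real.log_mul (by positivity) (by positivity), Real.log_rpow hN0]
    refine Real.exp_le_exp.mpr ?_
    have hC2l : 0 ≤ Real.log (2 * C2) := Real.log_nonneg (by linarith)
    have e2 : (Real.log (2 * C2) + (3 / 2 - W') * Real.log N) * lam =
        Real.log (2 * C2) * lam - Real.log N / L * (δ * (1 - 3 / (2 * W'))) := by
      rw [elam, hx]
      field_simp
      ring
    rw [e2]
    have h10 : Real.log (2 * C2) * lam ≤ δ * Real.log (2 * C2) / L := by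
      have : lam ≤ δ / L := by
        rw [elam, ← hx]
        exact div_le_self hx0.le (by linarith)
      calc Real.log (2 * C2) * lam ≤ Real.log (2 * C2) * (δ / L) := by gcongr
        _ = _ := by ring
    have h11 : 3 / (2 * W') ≤ 3 / (2 * W) := by gcongr
    have h12 : Real.log N / L * (δ * (1 - 3 / (2 * W))) ≤ Real.log N / L * (δ * (1 - 3 / (2 * W'))) := by
      have : 0 ≤ Real.log N / L := by positivity
      gcongr
    linarith
  have h13 : 0 ≤ A ^ (1 - lam) := by positivity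
  calc A ^ (1 - lam) * a' ^ lam ≤ A ^ (1 - lam) * ((2 * C2 * N ^ (3 / 2 - W')) ^ lam * A ^ lam) := by gcongr
    _ = (2 * C2 * N ^ (3 / 2 - W')) ^ lam * (A ^ (1 - lam) * A ^ lam) := by ring
    _ = (2 * C2 * N ^ (3 / 2 - W')) ^ lam * A := by
        rw [← Real.rpow_add hA0, sub_add_cancel, Real.rpow_one]
    _ ≤ ρ * A := by gcongr

end Pool.Agent.K7.H50.MZ
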