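import Pool.Agent.K7.H50.MZ.Tri

set_option autoImplicit false

/-! The lower bound for the first moment in all windows of length at least `C log log T`. -/

namespace Pool.Agent.K7.H50.MZ

open MeasureTheory Complex Set Filter Topology Pool.Agent.H306R2 Pool.Agent.W184 Pool.Agent.R313.FM
open scoped ENNReal

lemma err_small (δ : ℝ) {η : ℝ} (hη : 0 < η) : ∀ᶠ U : ℝ in atTop,
    6 * Real.exp (2 * |δ|) * ((NN 2 U : ℝ) * (1 + Real.log (NN 2 U))) ≤ η * mm U U := by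
  filter_upwards [NN_mul 1, H_small (12 * Real.exp (2 * |δ|)) hη, eventually_gt_atTop (Real.exp 1)] with U h1 h2 h3
  have hU0 : 0 < U := lt_trans (Real.exp_pos 1) h3
  have hL1 : 1 < Real.log U := by rwa [Real.lt_log_iff_exp_lt hU0]
  have h4 := h2 U hU0.le
  refine le_trans ?_ h4
  have h5 : 2 * (U / Real.log U ^ 1) ≤ 2 * U := by
    rw [pow_one]
    have := div_le_self hU0.le hL1.le
    linarith
  calc 6 * Real.exp (2 * |δ|) * ((NN 2 U : ℝ) * (1 + Real.log (NN 2 U))) ≤ 6 * Real.exp (2 * |δ|) * (2 * U) :=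
        mul_le_mul_of_nonneg_left (h1.trans h5) (by positivity)
    _ = _ := by ring

lemma S_up (δ : ℝ) {η : ℝ} (hη : 0 < η) : ∀ᶠ U : ℝ in atTop, ∀ T : ℝ,
    ∫ t in T..(T + U), pn 2 U (1 / 2 + δ / Real.log U) t ≤ (gg δ + η) * mm U U := by
  have e1 := (coef_ev 2 δ).eventually_lt_const (show gg δ < gg δ + η / 2 by linarith)
  filter_upwards [e1, err_small δ (half_pos hη), pn_mv (m := 2) δ, big_log] with U a1 a3 a5 a6 T
  have hU0 : 0 < U := by linarith [a6.1]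
  have hL : 0 < Real.log U := by linarith [a6.2]
  have hLp : 0 < Real.log U ^ (kh ^ 2) := by positivity
  rw [div_lt_iff₀ hLp] at a1
  have hm := a5 T (T + U)
  rw [add_sub_cancel_left] at hm
  have hm' := abs_le.mp hm
  set Sg := ∑ n ∈ Finset.Icc 1 (NN 2 U), dv kh n ^ 2 * (n : ℝ) ^ (-(2 * (1 / 2 + δ / Real.log U)))
  unfold mm at a3 ⊢
  nlinarith [hm'.1, hm'.2, mul_lt_mul_of_pos_left a1 hU0]

lemma S_lo (δ : ℝ) {η : ℝ} (hη : 0 < η) (hη1 : η ≤ 1) : ∀ᶠ U : ℝ in atTop, ∀ A B : ℝ, (1 - η) * U ≤ B - A →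
    ((1 - η) * (gg δ - η) - η) * mm U U ≤ ∫ t in A..B, pn 2 U (1 / 2 + δ / Real.log U) t := by
  have e1 := (coef_ev 2 δ).eventually_const_lt (show gg δ - η < gg δ by linarith)
  filter_upwards [e1, err_small δ hη, pn_mv (m := 2) δ, big_log] with U a1 a3 a5 a6 A B hAB
  have hU0 : 0 < U := by linarith [a6.1]
  have hL : 0 < Real.log U := by linarith [a6.2]
  have hLp : 0 < Real.log U ^ (kh ^ 2) := by positivity
  rw [lt_div_iff₀ hLp] at a1
  have hm' := abs_le.mp (a5 A B)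
  set Sg := ∑ n ∈ Finset.Icc 1 (NN 2 U), dv kh n ^ 2 * (n : ℝ) ^ (-(2 * (1 / 2 + δ / Real.log U))) with hSg
  have hSg0 : 0 ≤ Sg := Finset.sum_nonneg fun n _ => by positivity
  unfold mm at a3 ⊢
  have b1 : (1 - η) * U * Sg ≤ (B - A) * Sg := mul_le_mul_of_nonneg_right hAB hSg0
  have b2 : (1 - η) * U * ((gg δ - η) * Real.log U ^ (kh ^ 2)) ≤ (1 - η) * U * Sg :=
    mul_le_mul_of_nonneg_left a1.le (mul_nonneg (by linarith) hU0.le)
  have b3 := hm'.1
  have b4 : ((1 - η) * (gg δ - η) - η) * (U * Real.log U ^ (kh ^ 2)) =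
      (1 - η) * U * ((gg δ - η) * Real.log U ^ (kh ^ 2)) - η * (U * Real.log U ^ (kh ^ 2)) := by ring
  rw [b4]
  generalize hI : (∫ t in A..B, pn 2 U (1 / 2 + δ / Real.log U) t) = I at b3 ⊢
  generalize hX : (1 - η) * U * ((gg δ - η) * Real.log U ^ (kh ^ 2)) = X at b2 ⊢
  generalize hE : 6 * Real.exp (2 * |δ|) * ((NN 2 U : ℝ) * (1 + Real.log (NN 2 U))) = E at a3 b3
  generalize hY : (1 - η) * U * Sg = Y at b1 b2
  generalize hZ : (B - A) * Sg = Z at b1 b3
  generalize hW : η * (U * Real.log U ^ (kh ^ 2)) = W at a3 ⊢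
  linarith

lemma exists_W (δ : ℝ) {η : ℝ} (hη : 0 < η) : ∀ᶠ W : ℝ in atTop,
    Real.exp (-(1 * δ * (1 - 3 / (2 * W)))) < Real.exp (-δ) + η := by
  have h1 : Tendsto (fun W : ℝ => 3 / (2 * W)) atTop (𝓝 0) :=
    tendsto_const_nhds.div_atTop (tendsto_id.const_mul_atTop (by norm_num))
  have h2 : Tendsto (fun W : ℝ => Real.exp (-(1 * δ * (1 - 3 / (2 * W))))) atTop
      (𝓝 (Real.exp (-(1 * δ * (1 - 0))))) :=
    (Real.continuous_exp.tendsto _).comp ((tendsto_const_nhds.mul (tendsto_const_nhds.sub h1)).neg)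
  refine h2.eventually_lt_const ?_
  rw [sub_zero, mul_one, one_mul]
  linarith

theorem core {δ l c : ℝ} (hδ : 0 < δ) (hl : 0 < l)
    (hc : Real.exp (-δ) * (c + gg 0) + 1 / 2 * (l * (Real.exp (-(2 * δ)) * (c + gg 0) + gg (2 * δ)) + l⁻¹ * c) <
      gg δ) :
    ∃ B η : ℝ, 0 < B ∧ 0 < η ∧ ∀ᶠ U : ℝ in atTop, ∀ T : ℝ, 0 ≤ T →
      4 * (B * Real.log (8 * Real.log (T + U))) ≤ η * U →
      c * mm U U ≤ ∫ t in T..(T + U), zn (1 / 2) t := by
  set e1 := Real.exp (-δ) with he1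
  set e2 := Real.exp (-(2 * δ)) with he2
  have he10 : 0 < e1 := Real.exp_pos _
  have he20 : 0 < e2 := Real.exp_pos _
  set Φ : ℝ → ℝ := fun η => (e1 + η) * (c + gg 0 + 3 * η) + 1 / 2 * (l * ((e2 + η) * (c + gg 0 + 3 * η) +
    (gg (2 * δ) + 2 * η)) + l⁻¹ * (c + η)) - (1 - η) * (1 - η) * ((1 - η) * (gg δ - η) - η) with hΦ
  have hΦ0 : Φ 0 < 0 := by
    simp only [hΦ]
    have : (e1 + 0) * (c + gg 0 + 3 * 0) + 1 / 2 * (l * ((e2 + 0) * (c + gg 0 + 3 * 0) +
      (gg (2 * δ) + 2 * 0)) + l⁻¹ * (c + 0)) - (1 - 0) * (1 - 0) * ((1 - 0) * (gg δ - 0) - 0) =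
      e1 * (c + gg 0) + 1 / 2 * (l * (e2 * (c + gg 0) + gg (2 * δ)) + l⁻¹ * c) - gg δ := by ring
    rw [this]
    linarith
  have hcont : ContinuousAt Φ 0 := by
    simp only [hΦ]
    fun_prop
  obtain ⟨η, hη, hΦη, hη1⟩ := exists_small hcont hΦ0 (fun η => η < 1)
    (((gt_mem_nhds one_pos)).filter_mono nhdsWithin_le_nhds)
  obtain ⟨W, hW2, hW1', hW2'⟩ := ((eventually_ge_atTop (2:ℝ)).and ((exists_W δ hη).and (exists_W (2 * δ) hη))).exists
  have hW0 : 0 < W := by linarith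
  have hB0 : 0 < 2 * W := by linarith
  refine ⟨2 * W, η, hB0, hη, ?_⟩
  set Z2 : ℝ := 1 + ∑' n : ℕ, 1 / (n : ℝ) ^ 2 with hZ2
  have hZ20 : 1 ≤ Z2 := by
    have : 0 ≤ ∑' n : ℕ, 1 / (n : ℝ) ^ 2 := tsum_nonneg fun n => by positivity
    linarith
  have hNev : ∀ᶠ U : ℝ in atTop, (1:ℝ) ≤ (NN 2 U : ℝ) := (NN_ge 2).mono fun U h => by exact_mod_cast h.2
  have D1 := decay (δ := δ) (W := W) (C2 := Z2) (ν := 1) (ρ := e1 + η) hδ hW2 hZ20 (Nf := fun U => (NN 2 U : ℝ))
    hNev (logNN_tendsto 2) hW1'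
  have D2 := decay (δ := 2 * δ) (W := W) (C2 := Z2) (ν := 1) (ρ := e2 + η) (by linarith) hW2 hZ20
    (Nf := fun U => (NN 2 U : ℝ)) hNev (logNN_tendsto 2) hW2'
  have hlogbig : ∀ᶠ U : ℝ in atTop, 4 * (2 * W) + 1 / η ≤ Real.log U :=
    Real.tendsto_log_atTop.eventually_ge_atTop _
  filter_upwards [D1, D2, S_up 0 hη, S_up (2 * δ) hη, S_lo δ hη hη1.le, H_small 1 hη,
    delta_small δ (show (0:ℝ) < min (η / 8) (1 / 16) by positivity), NN_le 2, NN_ge 2, hlogbig,
    eventually_ge_atTop 5, big_log] with U d1 d2 s0 s2 s1 hU1 hdel nle nge hlog hU5 hbl T hT hr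
  have hU0 : 0 < U := by linarith
  set L := Real.log U with hLdef
  have hL0 : 0 < L := by linarith [hbl.2]
  set M := mm U U with hM
  have hM0 : 0 < M := mm_pos hbl.1 hU0
  have hUM : U ≤ η * M := by
    have := hU1 U hU0.le
    rwa [one_mul] at this
  have h1M : 1 ≤ η * M := by linarith
  set Δ := δ / L with hΔ
  have hΔ0 : 0 < Δ := by positivity
  rw [abs_of_pos hΔ0] at hdel
  have hΔ8 : 8 * Δ ≤ η := by
    have := hdel.trans (min_le_left _ _)
    linarith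
  have hΔ16 : Δ ≤ 1 / 16 := hdel.trans (min_le_right _ _)
  set V := T + U with hV
  have hVU : U ≤ V := by linarith
  have hV5 : 5 ≤ V := by linarith
  have hV0 : 0 < V := by linarith
  have hlV : L ≤ Real.log V := Real.log_le_log hU0 hVU
  have hlV0 : 0 < Real.log V := by linarith
  set r := 2 * W * Real.log (8 * Real.log V) with hrdef
  have hrB : Real.exp (r / (2 * W)) = 8 * Real.log V := by
    rw [hrdef, mul_div_assoc, mul_comm (2 * W), div_mul_cancel₀ _ hB0.ne', Real.exp_log (by positivity)]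
  have hE : 4 * (2 * W) ≤ Real.exp (r / (2 * W)) := by
    rw [hrB]
    have : 0 < 1 / η := by positivity
    linarith
  have hEi : Real.exp (-(r / (2 * W))) = (8 * Real.log V)⁻¹ := by rw [Real.exp_neg, hrB]
  have hEi2 : 2 * Real.exp (-(r / (2 * W))) ≤ η := by
    rw [hEi, ← div_eq_mul_inv, div_le_iff₀ (by positivity)]
    have h1 : 1 / η ≤ Real.log V := by
      have : 0 < 4 * (2 * W) := by positivity
      linarith
    rw [div_le_iff₀ hη] at h1
    linarith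
  have hr0 : 0 ≤ r := by
    rw [hrdef]
    refine mul_nonneg hB0.le (Real.log_nonneg ?_)
    have : 0 < 4 * (2 * W) := by positivity
    have : 0 < 1 / η := by positivity
    linarith
  have hrU : 4 * r ≤ η * U := hr
  have hrU' : 4 * r ≤ U := hrU.trans (mul_le_of_le_one_left hU0.le hη1.le)
  -- tails
  set K : ℝ := 12 + U ^ 2 with hK
  have hK0 : 0 ≤ K := by positivity
  have htail : 2 * K * (1 + V) * Real.exp (-(Real.exp (r / (2 * W)) / 2)) ≤ 1 := by
    rw [hrB, show 8 * Real.log V / 2 = 4 * Real.log V by ring, Real.exp_neg]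
    have e4 : Real.exp (4 * Real.log V) = V ^ 4 := by
      rw [show (4:ℝ) = ((4:ℕ) : ℝ) by norm_num, ← Real.log_pow, Real.exp_log (by positivity)]
    rw [e4, ← div_eq_mul_inv, div_le_one (by positivity)]
    have h1 : K ≤ 12 + V ^ 2 := by
      rw [hK]
      have : U ^ 2 ≤ V ^ 2 := pow_le_pow_left₀ hU0.le hVU 2
      linarith
    have h6 : 2 * (12 + V ^ 2) * (1 + V) ≤ V ^ 4 := by
      have g1 := mul_nonneg (sq_nonneg V) (sub_nonneg.2 hV5)
      have g2 := mul_nonneg hV0.le (sub_nonneg.2 hV5)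
      have g3 := mul_nonneg (mul_nonneg (sq_nonneg V) hV0.le) (sub_nonneg.2 hV5)
      ring_nf at g1 g2 g3 ⊢
      linarith
    refine le_trans ?_ h6
    gcongr
  have htailZ : 2 * (12:ℝ) * (1 + V) * Real.exp (-(Real.exp (r / (2 * W)) / 2)) ≤ 1 := by
    refine le_trans ?_ htail
    have : (12:ℝ) ≤ K := by rw [hK]; nlinarith [sq_nonneg U]
    gcongr
  set a := T + r with ha
  set b := V - r with hb
  have hab : a ≤ b := by rw [ha, hb, hV]; linarith
  have hTV : T ≤ V := by linarith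
  have hN : (NN 2 U : ℝ) ≤ U := nle
  have hN1 : 1 ≤ NN 2 U := nge.2
  -- the functions
  have hznK : ∀ x t : ℝ, 3 / 8 ≤ x → x ≤ 3 / 4 → zn x t ≤ 12 * (1 + |t|) := fun x t h1 h2 => zn_le' h1 h2
  have hpnK : ∀ x t : ℝ, 0 ≤ x → pn 2 U x t ≤ U ^ 2 * (1 + |t|) := by
    intro x t hx
    unfold pn
    have h1 : ‖PP 2 U ((x : ℂ) + t * I)‖ ≤ U := (PP_le 2 U (by simpa using hx)).trans hN
    have h2 : ‖PP 2 U ((x : ℂ) + t * I)‖ ^ 2 ≤ U ^ 2 := pow_le_pow_left₀ (norm_nonneg _) h1 2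
    nlinarith [mul_nonneg (sq_nonneg U) (abs_nonneg t)]
  set z := ∫ t in T..V, zn (1 / 2) t with hz
  set S0 := ∫ t in T..V, pn 2 U (1 / 2) t with hS0
  set S2 := ∫ t in T..V, pn 2 U (1 / 2 + 2 * δ / L) t with hS2
  have hz0 : 0 ≤ z := intervalIntegral.integral_nonneg hTV fun t _ => zn_nonneg _ _
  have hS00 : 0 ≤ S0 := intervalIntegral.integral_nonneg hTV fun t _ => pn_nonneg _ _ _ _
  have hS20 : 0 ≤ S2 := intervalIntegral.integral_nonneg hTV fun t _ => pn_nonneg _ _ _ _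
  have hczn : Continuous (zn (1 / 2)) := zn_cont (by norm_num)
  have hcpn := pn_cont 2 U (1 / 2)
  -- line integrals on the critical line
  have LZ : LM (Ph ZZf a b (2 * W)) (1 / 2) ≤ ENNReal.ofReal (z + 1) := by
    refine (LM_le le_rfl (by norm_num)).trans ?_
    simp only [dn_ZZf]
    exact LM_win hB0 hT hTV hE le_rfl (by linarith) (by norm_num) (fun t => zn_nonneg _ _)
      (fun t => hznK _ t (by norm_num) (by norm_num)) hczn htailZ
  have LQ : LM (Ph (QP 2 U) a b (2 * W)) (1 / 2) ≤ ENNReal.ofReal (z + S0 + 1) := by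
    refine (LM_le le_rfl (by norm_num)).trans ?_
    have h1 := LM_win (g := fun t => zn (1 / 2) t + pn 2 U (1 / 2) t) (K := K) hB0 hT hTV hE (le_refl ((1:ℝ) / 2))
      (by linarith) hK0 (fun t => add_nonneg (zn_nonneg _ _) (pn_nonneg _ _ _ _))
      (fun t => by
        have h2 := hznK (1 / 2) t (by norm_num) (by norm_num)
        have h3 := hpnK (1 / 2) t (by norm_num)
        rw [hK, add_mul]
        linarith) (hczn.add hcpn) htail
    rw [intervalIntegral.integral_add (hczn.intervalIntegrable _ _) (hcpn.intervalIntegrable _ _)] at h1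
    refine le_trans (lintegral_mono fun t => ENNReal.ofReal_le_ofReal ?_) h1
    exact mul_le_mul_of_nonneg_right (tr2 2 U _ t) (om_pos _ _ _ _ _).le
  -- decay
  have hQb : ∀ s : ℂ, 0 ≤ s.re → ‖QP 2 U s‖ ≤ U ^ 2 := by
    intro s hs
    rw [QP_norm]
    exact pow_le_pow_left₀ (norm_nonneg _) ((PP_le 2 U hs).trans hN) 2
  have hQf : ∀ s : ℂ, 2 ≤ s.re → ‖riemannZeta s - QP 2 U s‖ * (NN 2 U : ℝ) ^ s.re ≤ Z2 * (NN 2 U : ℝ) ^ 2 := by
    intro s hs
    have h1 := zeta_sub_pow_le (v := 2) (N := NN 2 U) (by norm_num) hN1 hs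
    refine h1.trans ?_
    rw [mul_comm]
    refine mul_le_mul_of_nonneg_right ?_ (by positivity)
    rw [hZ2]
    linarith
  set AQ := z + S0 + 1 + U with hAQ
  have hAQ0 : 0 < AQ := by linarith
  have LQ' : LM (Ph (QP 2 U) a b (2 * W)) (1 / 2) ≤ ENNReal.ofReal AQ :=
    LQ.trans (ENNReal.ofReal_le_ofReal (by linarith))
  have hba : b - a ≤ U := by rw [ha, hb, hV]; linarith
  have L1 := d1 (QP 2 U) (U ^ 2) a b AQ (QP_diff 2 U) (by positivity) hQb hQf hab hba (by linarith) LQ'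
  have L2 := d2 (QP 2 U) (U ^ 2) a b AQ (QP_diff 2 U) (by positivity) hQb hQf hab hba (by linarith) LQ'
  -- zeta on the second line
  have hx2 : (1:ℝ) / 2 + 2 * δ / L = 1 / 2 + Δ + Δ := by rw [hΔ]; ring
  have LZ2 : LM (Ph ZZf a b (2 * W)) (1 / 2 + 2 * δ / L) ≤ ENNReal.ofReal ((e2 + η) * AQ + (S2 + 1)) := by
    refine (LM_tri (QP_diff 2 U) (by rw [hx2]; linarith)).trans ?_
    rw [ENNReal.ofReal_add (by positivity) (by linarith)]
    refine add_le_add L2 ?_
    have h1 := LM_win (g := fun t => pn 2 U (1 / 2 + 2 * δ / L) t) (K := K) (x := 1 / 2 + 2 * δ / L) hB0 hT hTV hE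
      (by rw [hx2]; linarith) (by rw [hx2]; linarith) hK0 (fun t => pn_nonneg _ _ _ _)
      (fun t => by
        have h3 := hpnK (1 / 2 + 2 * δ / L) t (by positivity)
        rw [hK, add_mul]
        have := abs_nonneg t
        linarith) (pn_cont 2 U _) htail
    refine le_trans (lintegral_mono fun t => ENNReal.ofReal_le_ofReal ?_) h1
    refine mul_le_mul_of_nonneg_right ?_ (om_pos _ _ _ _ _).le
    rw [QP_norm]
    exact le_rfl
  -- the midpoint inequality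
  obtain ⟨C, hC⟩ := Ph_bdd (Q := ZZf) (C1 := 0) le_rfl (fun z _ => by unfold ZZf; simp) a b (B := 2 * W) (by linarith)
  have hmid := LM_mid (F := Ph ZZf a b (2 * W)) (x := 1 / 2 + Δ) (Δ := Δ) (C := C) (l := l) hΔ0 hl
    (fun s hs => by
      have h1 : |s.re - (1 / 2 + Δ)| < Δ := hs
      have h2 := abs_lt.mp h1
      exact (Ph_diff (differentiable_const _) a b _ (by linarith)).differentiableWithinAt)
    (fun s hs => by
      have h1 : |s.re - (1 / 2 + Δ)| ≤ Δ := hs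
      have h2 := abs_le.mp h1
      exact (Ph_diff (differentiable_const _) a b _ (by linarith)).continuousAt.continuousWithinAt)
    (fun s hs => by
      have h2 := abs_le.mp hs
      exact hC s (by linarith) (by linarith))
  rw [← hx2, add_sub_cancel_right] at hmid
  have LZ1 : LM (Ph ZZf a b (2 * W)) (1 / 2 + Δ) ≤
      ENNReal.ofReal (1 / 2 * (l * ((e2 + η) * AQ + (S2 + 1)) + l⁻¹ * (z + 1))) := by
    refine hmid.trans ?_
    calc _ ≤ ENNReal.ofReal (1 / 2) * (ENNReal.ofReal l * ENNReal.ofReal ((e2 + η) * AQ + (S2 + 1)) +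
          ENNReal.ofReal l⁻¹ * ENNReal.ofReal (z + 1)) := by gcongr
      _ = _ := by
        rw [← ENNReal.ofReal_mul hl.le, ← ENNReal.ofReal_mul (inv_pos.mpr hl).le,
          ← ENNReal.ofReal_add (by positivity) (by positivity), ← ENNReal.ofReal_mul (by norm_num)]
  -- the inner mean square
  have hr1 : 0 ≤ 1 - 2 * Real.exp (-(r / (2 * W))) := by linarith
  have hin := inner_le (Q := QP 2 U) (g := pn 2 U (1 / 2 + Δ)) (QP_diff 2 U) (pn_cont 2 U _)
    (fun t => pn_nonneg _ _ _ _) (a := a) (b := b) (B := 2 * W) (r := r) (Δ := Δ) hB0 hΔ0.le (by linarith)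
    (by rw [ha, hb, hV]; linarith) hr1 (fun t => tr3 2 U _ t)
  have hin2 := hin.trans (add_le_add L1 LZ1)
  rw [← ENNReal.ofReal_add (by positivity) (by positivity)] at hin2
  set J := ∫ t in (a + r)..(b - r), pn 2 U (1 / 2 + Δ) t with hJ
  have hJ0 : 0 ≤ J := intervalIntegral.integral_nonneg (by rw [ha, hb, hV]; linarith) fun t _ => pn_nonneg _ _ _ _
  rw [ENNReal.ofReal_le_ofReal_iff (by positivity)] at hin2
  have hJl := s1 (a + r) (b - r) (by rw [ha, hb, hV]; linarith)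
  -- conclusion
  by_contra hcon
  push Not at hcon
  have t0 := s0 T
  rw [zero_div, add_zero] at t0
  have t2 := s2 T
  have k1 : (1 - η) * (1 - η) * J ≤ (1 - 8 * Δ) * (1 - 2 * Real.exp (-(r / (2 * W)))) * J := by
    refine mul_le_mul_of_nonneg_right ?_ hJ0
    exact mul_le_mul (by linarith) (by linarith) (by linarith) (by linarith)
  have k2 : (1 - η) * (1 - η) * (((1 - η) * (gg δ - η) - η) * M) ≤ (1 - η) * (1 - η) * J :=
    mul_le_mul_of_nonneg_left hJl (mul_nonneg (by linarith) (by linarith))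
  have k3 : AQ ≤ (c + gg 0 + 3 * η) * M := by
    rw [hAQ]
    linarith
  have k4 : S2 + 1 ≤ (gg (2 * δ) + 2 * η) * M := by linarith
  have k5 : z + 1 ≤ (c + η) * M := by linarith
  have k6 : (e1 + η) * AQ + 1 / 2 * (l * ((e2 + η) * AQ + (S2 + 1)) + l⁻¹ * (z + 1)) ≤
      (e1 + η) * ((c + gg 0 + 3 * η) * M) + 1 / 2 * (l * ((e2 + η) * ((c + gg 0 + 3 * η) * M) +
        (gg (2 * δ) + 2 * η) * M) + l⁻¹ * ((c + η) * M)) := by
    gcongr
  have k7 : 0 ≤ Φ η * M := by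
    have e : Φ η * M = (e1 + η) * ((c + gg 0 + 3 * η) * M) + 1 / 2 * (l * ((e2 + η) * ((c + gg 0 + 3 * η) * M) +
        (gg (2 * δ) + 2 * η) * M) + l⁻¹ * ((c + η) * M)) -
        (1 - η) * (1 - η) * (((1 - η) * (gg δ - η) - η) * M) := by
      simp only [hΦ]
      ring
    rw [e]
    linarith
  exact absurd k7 (not_le.2 (mul_neg_of_neg_of_pos hΦη hM0))

end Pool.Agent.K7.H50.MZ
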