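import Pool.Agent.W184.Avg

set_option autoImplicit false

/-! Log-convexity of the integrals of `‖F‖` over vertical lines in a strip. -/

namespace Pool.Agent.K7.H50.MZ

open MeasureTheory Complex Pool.Agent.W184
open scoped ENNReal

/-- the integral of `‖F‖` over the line `Re s = x` -/
noncomputable def LM (F : ℂ → ℂ) (x : ℝ) : ℝ≥0∞ := ∫⁻ t : ℝ, ‖F ((x : ℂ) + t * I)‖ₑ

lemma KS_lint {Δ : ℝ} (h : 0 < Δ) : ∫⁻ w : ℝ, ENNReal.ofReal (KS Δ w) = ENNReal.ofReal (1 / 2) := by
  rw [← ofReal_integral_eq_lintegral_ofReal (KS_integrable h)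
    (Filter.Eventually.of_forall fun w => KS_nonneg h w), KS_integral h]

lemma conv_line {Δ : ℝ} (h : 0 < Δ) {f : ℝ → ℂ} (hf : Continuous f) :
    ∫⁻ t : ℝ, ∫⁻ w : ℝ, ENNReal.ofReal (KS Δ w) * ‖f (t + w)‖ₑ =
      ENNReal.ofReal (1 / 2) * ∫⁻ t : ℝ, ‖f t‖ₑ := by
  rw [lintegral_lintegral_swap]
  · have e : ∀ w : ℝ, ∫⁻ t : ℝ, ENNReal.ofReal (KS Δ w) * ‖f (t + w)‖ₑ =
        ENNReal.ofReal (KS Δ w) * ∫⁻ t : ℝ, ‖f t‖ₑ := by
      intro w
      have hm : Measurable fun t : ℝ => ‖f (t + w)‖ₑ :=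
        (hf.comp (continuous_id.add continuous_const)).measurable.enorm
      rw [lintegral_const_mul _ hm]
      congr 1
      exact lintegral_add_right_eq_self (fun t => ‖f t‖ₑ) w
    simp_rw [e]
    rw [lintegral_mul_const _ (KS_cont h).measurable.ennreal_ofReal, KS_lint h]
  · refine Measurable.aemeasurable ?_
    have h1 : Measurable fun p : ℝ × ℝ => ENNReal.ofReal (KS Δ p.2) :=
      ((KS_cont h).comp continuous_snd).measurable.ennreal_ofReal
    have h2 : Continuous fun p : ℝ × ℝ => f (p.1 + p.2) := hf.comp (by fun_prop)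
    exact h1.mul h2.measurable.enorm

/-- the midpoint inequality -/
theorem LM_mid {F : ℂ → ℂ} {x Δ C l : ℝ} (hΔ : 0 < Δ) (hl : 0 < l)
    (hd : DifferentiableOn ℂ F {z | |z.re - x| < Δ}) (hc : ContinuousOn F {z | |z.re - x| ≤ Δ})
    (hb : ∀ z : ℂ, |z.re - x| ≤ Δ → ‖F z‖ ≤ C) :
    LM F x ≤ ENNReal.ofReal (1 / 2) * (ENNReal.ofReal l * LM F (x + Δ) +
      ENNReal.ofReal l⁻¹ * LM F (x - Δ)) := by
  set m : ℝ := Real.log l / Δ with hm
  have hmΔ : m * Δ = Real.log l := by rw [hm]; field_simp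
  have hC : 0 ≤ C := (norm_nonneg _).trans (hb x (by simp [hΔ.le]))
  set G : ℂ → ℂ := fun z => F z * Complex.exp (m * (z - x)) with hG
  have hGn : ∀ z, ‖G z‖ = ‖F z‖ * Real.exp (m * (z.re - x)) := by
    intro z
    rw [hG]
    simp only
    rw [norm_mul, Complex.norm_exp]
    congr 2
    rw [Complex.mul_re]
    simp
  have hGb : ∀ z : ℂ, |z.re - x| ≤ Δ → ‖G z‖ ≤ C * Real.exp |Real.log l| := by
    intro z hz
    rw [hGn]
    refine mul_le_mul (hb z hz) ?_ (Real.exp_pos _).le hC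
    refine Real.exp_le_exp.mpr ?_
    calc m * (z.re - x) ≤ |m * (z.re - x)| := le_abs_self _
      _ = |m| * |z.re - x| := abs_mul _ _
      _ ≤ |m| * Δ := by gcongr
      _ = |m * Δ| := by rw [abs_mul, abs_of_pos hΔ]
      _ = _ := by rw [hmΔ]
  have hp : Continuous fun t : ℝ => F (((x + Δ : ℝ) : ℂ) + t * I) := by
    refine hc.comp_continuous (by fun_prop) fun t => ?_
    simp [abs_of_pos hΔ]
  have hn : Continuous fun t : ℝ => F (((x - Δ : ℝ) : ℂ) + t * I) := by
    refine hc.comp_continuous (by fun_prop) fun t => ?_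
    simp [abs_of_pos hΔ]
  have key : ∀ t : ℝ, ‖F ((x : ℂ) + t * I)‖ₑ ≤
      (∫⁻ w : ℝ, ENNReal.ofReal (KS Δ w) * ‖(fun u : ℝ => (l : ℂ) * F (((x + Δ : ℝ) : ℂ) + u * I)) (t + w)‖ₑ) +
      ∫⁻ w : ℝ, ENNReal.ofReal (KS Δ w) * ‖(fun u : ℝ => ((l⁻¹ : ℝ) : ℂ) * F (((x - Δ : ℝ) : ℂ) + u * I)) (t + w)‖ₑ := by
    intro t
    set c : ℂ := (x : ℂ) + t * I with hcd
    have hcre : c.re = x := by simp [hcd]
    have h1 := strip_ineq (F := G) (c := c) (p := 1) (C := C * Real.exp |Real.log l|) hΔ one_pos ?_ ?_ ?_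
    · simp only [Real.rpow_one] at h1
      have e0 : ‖G c‖ = ‖F c‖ := by
        rw [hGn, hcre, sub_self, mul_zero, Real.exp_zero, mul_one]
      rw [e0] at h1
      have e1 : ∀ w : ℝ, ‖G (c + Δ + (w : ℂ) * I)‖ = ‖(l : ℂ) * F (((x + Δ : ℝ) : ℂ) + ((t + w : ℝ) : ℂ) * I)‖ := by
        intro w
        rw [hGn, norm_mul, Complex.norm_real, Real.norm_of_nonneg hl.le]
        have e2 : (c + Δ + (w : ℂ) * I).re - x = Δ := by simp [hcre]
        have e3 : c + Δ + (w : ℂ) * I = ((x + Δ : ℝ) : ℂ) + ((t + w : ℝ) : ℂ) * I := by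
          rw [hcd]; push_cast; ring
        rw [e2, hmΔ, Real.exp_log hl, e3, mul_comm]
      have e1' : ∀ w : ℝ, ‖G (c - Δ + (w : ℂ) * I)‖ = ‖((l⁻¹ : ℝ) : ℂ) * F (((x - Δ : ℝ) : ℂ) + ((t + w : ℝ) : ℂ) * I)‖ := by
        intro w
        rw [hGn, norm_mul, Complex.norm_real, Real.norm_of_nonneg (inv_pos.mpr hl).le]
        have e2 : (c - Δ + (w : ℂ) * I).re - x = -Δ := by simp [hcre]
        have e3 : c - Δ + (w : ℂ) * I = ((x - Δ : ℝ) : ℂ) + ((t + w : ℝ) : ℂ) * I := by
          rw [hcd]; push_cast; ring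
        rw [e2, mul_neg, hmΔ, Real.exp_neg, Real.exp_log hl, e3, mul_comm]
      simp only [e1, e1'] at h1
      have g1 : ∀ f : ℝ → ℂ, Continuous f → (∃ M : ℝ, ∀ u, ‖f u‖ ≤ M) →
          ENNReal.ofReal (∫ w : ℝ, KS Δ w * ‖f (t + w)‖) = ∫⁻ w : ℝ, ENNReal.ofReal (KS Δ w) * ‖f (t + w)‖ₑ := by
        rintro f hf ⟨M, hM⟩
        have hi : Integrable fun w : ℝ => KS Δ w * ‖f (t + w)‖ := by
          refine (KS_integrable hΔ).mul_bdd (c := M) ?_ ?_
          · exact ((hf.comp (by fun_prop)).norm).aestronglyMeasurable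
          · refine Filter.Eventually.of_forall fun w => ?_
            rw [norm_norm]; exact hM _
        rw [ofReal_integral_eq_lintegral_ofReal hi (Filter.Eventually.of_forall fun w =>
          mul_nonneg (KS_nonneg hΔ w) (norm_nonneg _))]
        refine lintegral_congr fun w => ?_
        rw [ENNReal.ofReal_mul (KS_nonneg hΔ w), ofReal_norm]
      have hbp : ∃ M : ℝ, ∀ u : ℝ, ‖(l : ℂ) * F (((x + Δ : ℝ) : ℂ) + u * I)‖ ≤ M := by
        refine ⟨l * C, fun u => ?_⟩
        rw [norm_mul, Complex.norm_real, Real.norm_of_nonneg hl.le]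
        refine mul_le_mul_of_nonneg_left (hb _ ?_) hl.le
        simp [abs_of_pos hΔ]
      have hbn : ∃ M : ℝ, ∀ u : ℝ, ‖((l⁻¹ : ℝ) : ℂ) * F (((x - Δ : ℝ) : ℂ) + u * I)‖ ≤ M := by
        refine ⟨l⁻¹ * C, fun u => ?_⟩
        rw [norm_mul, Complex.norm_real, Real.norm_of_nonneg (inv_pos.mpr hl).le]
        refine mul_le_mul_of_nonneg_left (hb _ ?_) (inv_pos.mpr hl).le
        simp [abs_of_pos hΔ]
      have hcp : Continuous fun u : ℝ => (l : ℂ) * F (((x + Δ : ℝ) : ℂ) + u * I) := continuous_const.mul hp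
      have hcn : Continuous fun u : ℝ => ((l⁻¹ : ℝ) : ℂ) * F (((x - Δ : ℝ) : ℂ) + u * I) := continuous_const.mul hn
      rw [← g1 _ hcp hbp, ← g1 _ hcn hbn, ← ENNReal.ofReal_add, ← ofReal_norm]
      · exact ENNReal.ofReal_le_ofReal h1
      · exact integral_nonneg fun w => mul_nonneg (KS_nonneg hΔ w) (norm_nonneg _)
      · exact integral_nonneg fun w => mul_nonneg (KS_nonneg hΔ w) (norm_nonneg _)
    · rw [hcre]
      exact hd.mul (Differentiable.differentiableOn (by fun_prop))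
    · rw [hcre]
      exact hc.mul (Continuous.continuousOn (by fun_prop))
    · rw [hcre]
      exact hGb
  have hcp : Continuous fun u : ℝ => (l : ℂ) * F (((x + Δ : ℝ) : ℂ) + u * I) := continuous_const.mul hp
  have hcn : Continuous fun u : ℝ => ((l⁻¹ : ℝ) : ℂ) * F (((x - Δ : ℝ) : ℂ) + u * I) := continuous_const.mul hn
  unfold LM
  refine (lintegral_mono key).trans ?_
  rw [lintegral_add_left', conv_line hΔ hcp, conv_line hΔ hcn, ← mul_add]
  · refine mul_le_mul_right ?_ _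
    have e : ∀ (r : ℝ) (hr : 0 < r) (f : ℝ → ℂ), Continuous f → ∫⁻ t : ℝ, ‖(r : ℂ) * f t‖ₑ =
        ENNReal.ofReal r * ∫⁻ t : ℝ, ‖f t‖ₑ := by
      intro r hr f hf
      rw [← lintegral_const_mul _ (by fun_prop)]
      refine lintegral_congr fun t => ?_
      rw [enorm_mul]
      congr 1
      rw [← ofReal_norm, Complex.norm_real, Real.norm_of_nonneg hr.le]
    rw [e l hl _ hp, e l⁻¹ (inv_pos.mpr hl) _ hn]
  · refine Measurable.aemeasurable ?_
    have h1 : Measurable fun p : ℝ × ℝ => ENNReal.ofReal (KS Δ p.2) :=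
      ((KS_cont hΔ).comp continuous_snd).measurable.ennreal_ofReal
    have h2 : Continuous fun p : ℝ × ℝ => (fun u : ℝ => (l : ℂ) * F (((x + Δ : ℝ) : ℂ) + u * I)) (p.1 + p.2) :=
      hcp.comp (by fun_prop)
    have h3 : Measurable (Function.uncurry fun t w : ℝ => ENNReal.ofReal (KS Δ w) *
        ‖(fun u : ℝ => (l : ℂ) * F (((x + Δ : ℝ) : ℂ) + u * I)) (t + w)‖ₑ) := h1.mul h2.measurable.enorm
    exact h3.lintegral_prod_right'

/-- dyadic interpolation -/
theorem LM_dyadic {F : ℂ → ℂ} {x W C A a : ℝ} (hW : 0 < W) (hA : 0 < A) (ha : 0 < a)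
    (hd : ∀ z : ℂ, x < z.re → z.re < x + W → DifferentiableAt ℂ F z)
    (hc : ∀ z : ℂ, x ≤ z.re → z.re ≤ x + W → ContinuousAt F z)
    (hb : ∀ z : ℂ, x ≤ z.re → z.re ≤ x + W → ‖F z‖ ≤ C)
    (h0 : LM F x ≤ ENNReal.ofReal A) (h1 : LM F (x + W) ≤ ENNReal.ofReal a) (n : ℕ) :
    LM F (x + W / 2 ^ n) ≤ ENNReal.ofReal (A ^ (1 - (1 / 2 : ℝ) ^ n) * a ^ ((1 / 2 : ℝ) ^ n)) := by
  induction n with
  | zero => simpa using h1
  | succ n ih =>
    set b : ℝ := A ^ (1 - (1 / 2 : ℝ) ^ n) * a ^ ((1 / 2 : ℝ) ^ n) with hbd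
    have hb0 : 0 < b := by positivity
    set D : ℝ := W / 2 ^ (n + 1) with hD
    have hD0 : 0 < D := by positivity
    have hDn : D + D = W / 2 ^ n := by
      rw [hD, pow_succ]; field_simp; ring
    have hWn : W / 2 ^ n ≤ W := div_le_self hW.le (one_le_pow₀ (by norm_num))
    set l : ℝ := Real.sqrt (A / b) with hl
    have hl0 : 0 < l := Real.sqrt_pos.2 (by positivity)
    have hmid := LM_mid (F := F) (x := x + D) (Δ := D) (C := C) (l := l) hD0 hl0 ?_ ?_ ?_
    · rw [show x + D + D = x + W / 2 ^ n by rw [add_assoc, hDn], add_sub_cancel_right] at hmid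
      refine hmid.trans ?_
      calc ENNReal.ofReal (1 / 2) * (ENNReal.ofReal l * LM F (x + W / 2 ^ n) + ENNReal.ofReal l⁻¹ * LM F x)
          ≤ ENNReal.ofReal (1 / 2) * (ENNReal.ofReal l * ENNReal.ofReal b +
            ENNReal.ofReal l⁻¹ * ENNReal.ofReal A) := by gcongr
        _ = ENNReal.ofReal (1 / 2 * (l * b + l⁻¹ * A)) := by
            rw [← ENNReal.ofReal_mul hl0.le, ← ENNReal.ofReal_mul (inv_pos.mpr hl0).le,
              ← ENNReal.ofReal_add (by positivity) (by positivity), ← ENNReal.ofReal_mul (by norm_num)]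
        _ = _ := by
            congr 1
            have hll : l * l = A / b := Real.mul_self_sqrt (by positivity)
            have e1 : l⁻¹ * A = l * b := by
              have : A = (l * l) * b := by rw [hll]; field_simp
              rw [this]
              field_simp
            have e2 : l * b = Real.sqrt (A * b) := by
              have : A * b = (l * b) ^ 2 := by
                calc A * b = (l * l) * b * b := by rw [hll]; field_simp
                  _ = (l * b) ^ 2 := by ring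
              rw [this, Real.sqrt_sq (by positivity)]
            rw [e1, e2]
            have e3 : Real.sqrt (A * b) = A ^ (1 / 2 : ℝ) * b ^ (1 / 2 : ℝ) := by
              rw [Real.sqrt_eq_rpow, Real.mul_rpow hA.le hb0.le]
            rw [e3, hbd, Real.mul_rpow (by positivity) (by positivity), ← Real.rpow_mul hA.le,
              ← Real.rpow_mul ha.le, ← mul_assoc (A ^ (1 / 2 : ℝ)), ← Real.rpow_add hA]
            rw [pow_succ]
            have e4 : (1 / 2 : ℝ) + (1 - (1 / 2) ^ n) * (1 / 2) = 1 - (1 / 2) ^ n * (1 / 2) := by ring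
            rw [e4]
            ring
    · intro z hz
      have hz' : |z.re - (x + D)| < D := hz
      have := abs_lt.mp hz'
      exact (hd z (by linarith) (by linarith)).differentiableWithinAt
    · intro z hz
      have hz' : |z.re - (x + D)| ≤ D := hz
      have := abs_le.mp hz'
      exact (hc z (by linarith) (by linarith)).continuousWithinAt
    · intro z hz
      have := abs_le.mp hz
      exact hb z (by linarith) (by linarith)

end Pool.Agent.K7.H50.MZ
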