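import Mathlib

set_option autoImplicit false

/-! An entire weight that is close to the indicator function of an interval of heights. -/

namespace Pool.Agent.K7.H50.MZ

open MeasureTheory Complex Set
open scoped ENNReal

/-- the profile `exp (-c (e^{(a-t)/B} + e^{(t-b)/B}))` -/
noncomputable def om (c a b B t : ℝ) : ℝ :=
  Real.exp (-(c * (Real.exp ((a - t) / B) + Real.exp ((t - b) / B))))

/-- the entire weight -/
noncomputable def wt (a b B : ℝ) (s : ℂ) : ℂ :=
  Complex.exp (-(Complex.exp ((a + I * (s - 1 / 2)) / B) + Complex.exp ((-I * (s - 1 / 2) - b) / B)))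

lemma wt_diff (a b B : ℝ) : Differentiable ℂ (wt a b B) := by
  unfold wt
  fun_prop

lemma wt_norm (a b B σ t : ℝ) :
    ‖wt a b B ((σ : ℂ) + t * I)‖ = om (Real.cos ((σ - 1 / 2) / B)) a b B t := by
  unfold wt om
  rw [Complex.norm_exp]
  congr 1
  have e1 : ((a : ℂ) + I * ((σ : ℂ) + t * I - 1 / 2)) / B =
      (((a - t) / B : ℝ) : ℂ) + (((σ - 1 / 2) / B : ℝ) : ℂ) * I := by
    push_cast
    have : I * I = -1 := Complex.I_mul_I
    linear_combination (t / B : ℂ) * this
  have e2 : (-I * ((σ : ℂ) + t * I - 1 / 2) - b) / B =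
      (((t - b) / B : ℝ) : ℂ) + ((-((σ - 1 / 2) / B) : ℝ) : ℂ) * I := by
    push_cast
    have : I * I = -1 := Complex.I_mul_I
    linear_combination (-t / B : ℂ) * this
  have e3 : ∀ x y : ℝ, (Complex.exp ((x : ℂ) + (y : ℂ) * I)).re = Real.exp x * Real.cos y := by
    intro x y
    rw [Complex.exp_re]; simp
  rw [Complex.neg_re, Complex.add_re, e1, e2, e3, e3, Real.cos_neg]
  ring

lemma om_pos (c a b B t : ℝ) : 0 < om c a b B t := Real.exp_pos _

lemma om_cont (c a b B : ℝ) : Continuous (om c a b B) := by
  unfold om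
  fun_prop

lemma om_le_one {c : ℝ} (hc : 0 ≤ c) (a b B t : ℝ) : om c a b B t ≤ 1 := by
  unfold om
  rw [Real.exp_le_one_iff]
  have : 0 ≤ c * (Real.exp ((a - t) / B) + Real.exp ((t - b) / B)) := by positivity
  linarith

lemma cos_half {x : ℝ} (h : |x| ≤ 1) : 1 / 2 ≤ Real.cos x := by
  have h1 := Real.one_sub_sq_div_two_le_cos (x := x)
  have h2 : x ^ 2 ≤ 1 := by
    rw [← sq_abs]
    nlinarith [abs_nonneg x]
  linarith

lemma om_left {c : ℝ} (hc : 1 / 2 ≤ c) (a b B t : ℝ) : om c a b B t ≤ Real.exp (-((a - t) / (2 * B))) := by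
  unfold om
  refine Real.exp_le_exp.mpr ?_
  have h1 := Real.add_one_le_exp ((a - t) / B)
  have h2 := Real.exp_pos ((a - t) / B)
  have h3 := Real.exp_pos ((t - b) / B)
  have e : (a - t) / (2 * B) = 1 / 2 * ((a - t) / B) := by
    by_cases hB : B = 0
    · subst hB; simp
    · field_simp
  rw [e]
  have h4 : 1 / 2 * ((a - t) / B) ≤ 1 / 2 * Real.exp ((a - t) / B) := by linarith
  have h5 : 1 / 2 * Real.exp ((a - t) / B) ≤ c * Real.exp ((a - t) / B) := by gcongr
  have h6 : 0 ≤ c * Real.exp ((t - b) / B) := mul_nonneg (by linarith) h3.le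
  linarith

lemma om_right {c : ℝ} (hc : 1 / 2 ≤ c) (a b B t : ℝ) : om c a b B t ≤ Real.exp (-((t - b) / (2 * B))) := by
  unfold om
  refine Real.exp_le_exp.mpr ?_
  have h1 := Real.add_one_le_exp ((t - b) / B)
  have h2 := Real.exp_pos ((a - t) / B)
  have h3 := Real.exp_pos ((t - b) / B)
  have e : (t - b) / (2 * B) = 1 / 2 * ((t - b) / B) := by
    by_cases hB : B = 0
    · subst hB; simp
    · field_simp
  rw [e]
  have h4 : 1 / 2 * ((t - b) / B) ≤ 1 / 2 * Real.exp ((t - b) / B) := by linarith
  have h5 : 1 / 2 * Real.exp ((t - b) / B) ≤ c * Real.exp ((t - b) / B) := by gcongr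
  have h6 : 0 ≤ c * Real.exp ((a - t) / B) := mul_nonneg (by linarith) h2.le
  linarith

/-- exponential decay -/
lemma om_decay {c B : ℝ} (hc : 1 / 2 ≤ c) (hB : 0 < B) (a b t : ℝ) :
    om c a b B t ≤ Real.exp ((|a| + |b|) / (2 * B)) * Real.exp (-(|t| / (2 * B))) := by
  rw [← Real.exp_add]
  rcases le_total 0 t with h | h
  · refine (om_right hc a b B t).trans (Real.exp_le_exp.mpr ?_)
    rw [abs_of_nonneg h, ← sub_eq_add_neg, ← sub_div, ← neg_div, ]
    refine div_le_div_of_nonneg_right ?_ (by positivity)
    have := le_abs_self b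
    have := abs_nonneg a
    linarith
  · refine (om_left hc a b B t).trans (Real.exp_le_exp.mpr ?_)
    rw [abs_of_nonpos h, ← sub_eq_add_neg, ← sub_div, ← neg_div]
    refine div_le_div_of_nonneg_right ?_ (by positivity)
    have := neg_abs_le a
    have := abs_nonneg b
    linarith

/-- the weight is bounded together with polynomial factors -/
lemma om_bdd {c B : ℝ} (hc : 1 / 2 ≤ c) (hB : 0 < B) (a b t : ℝ) :
    (1 + |t|) ^ 2 * om c a b B t ≤
      Real.exp ((|a| + |b|) / (2 * B)) * (2 * (2 * B) ^ 2 * Real.exp (1 / (2 * B))) := by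
  have h1 := om_decay hc hB a b t
  have h2 : (1 + |t|) ^ 2 ≤ 2 * (2 * B) ^ 2 * Real.exp ((1 + |t|) / (2 * B)) := by
    have h3 := Real.pow_div_factorial_le_exp ((1 + |t|) / (2 * B)) (by positivity) 2
    rw [div_pow] at h3
    rw [div_div, div_le_iff₀ (by positivity)] at h3
    norm_num at h3
    linarith
  calc (1 + |t|) ^ 2 * om c a b B t ≤
      (2 * (2 * B) ^ 2 * Real.exp ((1 + |t|) / (2 * B))) *
        (Real.exp ((|a| + |b|) / (2 * B)) * Real.exp (-(|t| / (2 * B)))) := by
        have := om_pos c a b B t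
        gcongr
    _ = Real.exp ((|a| + |b|) / (2 * B)) * (2 * (2 * B) ^ 2 *
        (Real.exp ((1 + |t|) / (2 * B)) * Real.exp (-(|t| / (2 * B))))) := by ring
    _ = _ := by
      rw [← Real.exp_add]
      congr 3
      ring_nf

/-- inside the window the weight is close to one -/
lemma om_inner {c a b B r t : ℝ} (hc : c ≤ 1) (hB : 0 < B) (h1 : a + r ≤ t) (h2 : t ≤ b - r) :
    1 - 2 * Real.exp (-(r / B)) ≤ om c a b B t := by
  unfold om
  have h3 : Real.exp ((a - t) / B) ≤ Real.exp (-(r / B)) := by
    refine Real.exp_le_exp.mpr ?_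
    rw [← neg_div]
    exact div_le_div_of_nonneg_right (by linarith) hB.le
  have h4 : Real.exp ((t - b) / B) ≤ Real.exp (-(r / B)) := by
    refine Real.exp_le_exp.mpr ?_
    rw [← neg_div]
    exact div_le_div_of_nonneg_right (by linarith) hB.le
  have h5 := Real.add_one_le_exp (-(c * (Real.exp ((a - t) / B) + Real.exp ((t - b) / B))))
  have h6 : c * (Real.exp ((a - t) / B) + Real.exp ((t - b) / B)) ≤ 1 * (2 * Real.exp (-(r / B))) := by
    refine mul_le_mul hc (by linarith) (by positivity) zero_le_one
  linarith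

/-- the total mass -/
lemma om_mass {c B : ℝ} (hc : 1 / 2 ≤ c) (hB : 0 < B) {a b : ℝ} (hab : a ≤ b) :
    ∫⁻ t : ℝ, ENNReal.ofReal (om c a b B t) ≤ ENNReal.ofReal (b - a + 4 * B) := by
  have h2B : 0 < 1 / (2 * B) := by positivity
  have e1 : ∫⁻ t in Iic a, ENNReal.ofReal (om c a b B t) ≤ ENNReal.ofReal (2 * B) := by
    have i1 : ∫ t in Iic a, Real.exp (1 / (2 * B) * t) = Real.exp (1 / (2 * B) * a) / (1 / (2 * B)) :=
      integral_exp_mul_Iic h2B a
    have i2 : IntegrableOn (fun t : ℝ => Real.exp (1 / (2 * B) * t)) (Iic a) := integrableOn_exp_mul_Iic h2B a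
    calc ∫⁻ t in Iic a, ENNReal.ofReal (om c a b B t) ≤
        ∫⁻ t in Iic a, ENNReal.ofReal (Real.exp (-(1 / (2 * B) * a)) * Real.exp (1 / (2 * B) * t)) := by
          refine lintegral_mono fun t => ENNReal.ofReal_le_ofReal ?_
          refine (om_left hc a b B t).trans (le_of_eq ?_)
          rw [← Real.exp_add]
          congr 1
          field_simp
          ring
      _ = ENNReal.ofReal (∫ t in Iic a, Real.exp (-(1 / (2 * B) * a)) * Real.exp (1 / (2 * B) * t)) := by
          rw [ofReal_integral_eq_lintegral_ofReal (i2.const_mul _)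
            (Filter.Eventually.of_forall fun t => by positivity)]
      _ = ENNReal.ofReal (2 * B) := by
          rw [integral_const_mul, i1, mul_div_assoc', ← Real.exp_add]
          simp
  have e2 : ∫⁻ t in Ioi b, ENNReal.ofReal (om c a b B t) ≤ ENNReal.ofReal (2 * B) := by
    have hneg : -(1 / (2 * B)) < 0 := by linarith
    have i1 : ∫ t in Ioi b, Real.exp (-(1 / (2 * B)) * t) = -Real.exp (-(1 / (2 * B)) * b) / (-(1 / (2 * B))) :=
      integral_exp_mul_Ioi hneg b
    have i2 : IntegrableOn (fun t : ℝ => Real.exp (-(1 / (2 * B)) * t)) (Ioi b) := integrableOn_exp_mul_Ioi hneg b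
    calc ∫⁻ t in Ioi b, ENNReal.ofReal (om c a b B t) ≤
        ∫⁻ t in Ioi b, ENNReal.ofReal (Real.exp (1 / (2 * B) * b) * Real.exp (-(1 / (2 * B)) * t)) := by
          refine lintegral_mono fun t => ENNReal.ofReal_le_ofReal ?_
          refine (om_right hc a b B t).trans (le_of_eq ?_)
          rw [← Real.exp_add]
          congr 1
          field_simp
          ring
      _ = ENNReal.ofReal (∫ t in Ioi b, Real.exp (1 / (2 * B) * b) * Real.exp (-(1 / (2 * B)) * t)) := by
          rw [ofReal_integral_eq_lintegral_ofReal (i2.const_mul _)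
            (Filter.Eventually.of_forall fun t => by positivity)]
      _ = ENNReal.ofReal (2 * B) := by
          rw [integral_const_mul, i1, neg_div_neg_eq, mul_div_assoc', ← Real.exp_add]
          simp
  have e3 : ∫⁻ t in Ioc a b, ENNReal.ofReal (om c a b B t) ≤ ENNReal.ofReal (b - a) := by
    calc ∫⁻ t in Ioc a b, ENNReal.ofReal (om c a b B t) ≤ ∫⁻ _t in Ioc a b, 1 := by
          refine lintegral_mono fun t => ?_
          rw [← ENNReal.ofReal_one]
          exact ENNReal.ofReal_le_ofReal (om_le_one (by linarith) a b B t)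
      _ = ENNReal.ofReal (b - a) := by simp
  have hu : (univ : Set ℝ) = (Iic a ∪ Ioc a b) ∪ Ioi b := by
    rw [Iic_union_Ioc_eq_Iic hab, Iic_union_Ioi]
  rw [← setLIntegral_univ, hu]
  refine (lintegral_union_le _ _ _).trans ?_
  refine (add_le_add_left (lintegral_union_le _ _ _) _).trans ?_
  refine (add_le_add (add_le_add e1 e3) e2).trans (le_of_eq ?_)
  rw [← ENNReal.ofReal_add (by positivity) (by linarith), ← ENNReal.ofReal_add (by linarith [hB]) (by positivity)]
  congr 1
  ring

/-- tails outside the window -/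
lemma om_tail {c B T V r K : ℝ} (hc : 1 / 2 ≤ c) (hB : 0 < B) (hT : 0 ≤ T) (hTV : T ≤ V)
    (hE : 4 * B ≤ Real.exp (r / B))
    (hK : 0 ≤ K) {g : ℝ → ℝ} (hg0 : ∀ t, 0 ≤ g t) (hg : ∀ t, g t ≤ K * (1 + |t|)) (hgc : Continuous g) :
    ∫⁻ t : ℝ, ENNReal.ofReal (g t * om c (T + r) (V - r) B t) ≤
      ENNReal.ofReal ((∫ t in T..V, g t) + 2 * K * (1 + V) * Real.exp (-(Real.exp (r / B) / 2))) := by
  set E := Real.exp (r / B) with hEd
  have hE0 : 0 < E := Real.exp_pos _
  have hV1 : 0 ≤ 1 + V := by linarith
  have key : ∀ y : ℝ, 0 ≤ y → (1 + y) * Real.exp (-(c * Real.exp ((r + y) / B))) ≤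
      Real.exp (-(E / 2)) * Real.exp (-y) := by
    intro y hy
    have h1 : E * (1 + y / B) ≤ Real.exp ((r + y) / B) := by
      rw [add_div, Real.exp_add]
      refine mul_le_mul_of_nonneg_left ?_ hE0.le
      have := Real.add_one_le_exp (y / B)
      linarith
    have h2 : 1 + y ≤ Real.exp y := by
      have := Real.add_one_le_exp y
      linarith
    have h3 : 4 * y ≤ E * (y / B) := by
      calc 4 * y = 4 * B * (y / B) := by field_simp
        _ ≤ E * (y / B) := mul_le_mul_of_nonneg_right hE (by positivity)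
    have h4 : 1 / 2 * Real.exp ((r + y) / B) ≤ c * Real.exp ((r + y) / B) := by gcongr
    calc (1 + y) * Real.exp (-(c * Real.exp ((r + y) / B))) ≤ Real.exp y * Real.exp (-(E / 2 + 2 * y)) := by
          refine mul_le_mul h2 (Real.exp_le_exp.mpr ?_) (Real.exp_pos _).le (Real.exp_pos _).le
          linarith
      _ = Real.exp (-(E / 2)) * Real.exp (-y) := by
          rw [← Real.exp_add, ← Real.exp_add]; congr 1; ring
  have e1 : ∫⁻ t in Iic T, ENNReal.ofReal (g t * om c (T + r) (V - r) B t) ≤
      ENNReal.ofReal (K * (1 + V) * Real.exp (-(E / 2))) := by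
    have i1 : ∫ t in Iic T, Real.exp (1 * t) = Real.exp (1 * T) / 1 := integral_exp_mul_Iic one_pos T
    have i2 : IntegrableOn (fun t : ℝ => Real.exp (1 * t)) (Iic T) := integrableOn_exp_mul_Iic one_pos T
    calc ∫⁻ t in Iic T, ENNReal.ofReal (g t * om c (T + r) (V - r) B t) ≤
        ∫⁻ t in Iic T, ENNReal.ofReal (K * (1 + V) * Real.exp (-(E / 2)) * Real.exp (-T) * Real.exp (1 * t)) := by
          refine setLIntegral_mono (by fun_prop) fun t ht => ENNReal.ofReal_le_ofReal ?_
          have ht' : t ≤ T := ht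
          have h1 : om c (T + r) (V - r) B t ≤ Real.exp (-(c * Real.exp ((r + (T - t)) / B))) := by
            unfold om
            refine Real.exp_le_exp.mpr ?_
            rw [show T + r - t = r + (T - t) by ring]
            have := Real.exp_pos ((t - (V - r)) / B)
            have h5 : 0 ≤ c * Real.exp ((t - (V - r)) / B) := mul_nonneg (by linarith) this.le
            linarith
          have h2 : 1 + |t| ≤ (1 + V) * (1 + (T - t)) := by
            have h3 : |t| ≤ T + (T - t) := by
              rw [abs_le]; constructor <;> linarith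
            nlinarith
          have h4 := key (T - t) (by linarith)
          have h5 := om_pos c (T + r) (V - r) B t
          calc g t * om c (T + r) (V - r) B t ≤ (K * ((1 + V) * (1 + (T - t)))) *
                Real.exp (-(c * Real.exp ((r + (T - t)) / B))) := by
                refine mul_le_mul ((hg t).trans (mul_le_mul_of_nonneg_left h2 hK)) h1 h5.le ?_
                exact mul_nonneg hK (mul_nonneg (by linarith) (by linarith))
            _ = K * (1 + V) * ((1 + (T - t)) * Real.exp (-(c * Real.exp ((r + (T - t)) / B)))) := by ring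
            _ ≤ K * (1 + V) * (Real.exp (-(E / 2)) * Real.exp (-(T - t))) := by
                gcongr
            _ = _ := by
                rw [show -(T - t) = -T + 1 * t by ring, Real.exp_add]; ring
      _ = ENNReal.ofReal (∫ t in Iic T, K * (1 + V) * Real.exp (-(E / 2)) * Real.exp (-T) * Real.exp (1 * t)) := by
          rw [ofReal_integral_eq_lintegral_ofReal (i2.const_mul _)
            (Filter.Eventually.of_forall fun t => by
              simp only [Pi.zero_apply]
              positivity)]
      _ = _ := by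
          rw [integral_const_mul, i1]
          congr 1
          rw [div_one, mul_assoc, ← Real.exp_add]
          simp
  have e2 : ∫⁻ t in Ioi V, ENNReal.ofReal (g t * om c (T + r) (V - r) B t) ≤
      ENNReal.ofReal (K * (1 + V) * Real.exp (-(E / 2))) := by
    have i1 : ∫ t in Ioi V, Real.exp (-1 * t) = -Real.exp (-1 * V) / (-1) := integral_exp_mul_Ioi (by norm_num) V
    have i2 : IntegrableOn (fun t : ℝ => Real.exp (-1 * t)) (Ioi V) := integrableOn_exp_mul_Ioi (by norm_num) V
    calc ∫⁻ t in Ioi V, ENNReal.ofReal (g t * om c (T + r) (V - r) B t) ≤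
        ∫⁻ t in Ioi V, ENNReal.ofReal (K * (1 + V) * Real.exp (-(E / 2)) * Real.exp V * Real.exp (-1 * t)) := by
          refine setLIntegral_mono (by fun_prop) fun t ht => ENNReal.ofReal_le_ofReal ?_
          have ht' : V < t := ht
          have h1 : om c (T + r) (V - r) B t ≤ Real.exp (-(c * Real.exp ((r + (t - V)) / B))) := by
            unfold om
            refine Real.exp_le_exp.mpr ?_
            rw [show t - (V - r) = r + (t - V) by ring]
            have := Real.exp_pos ((T + r - t) / B)
            have h5 : 0 ≤ c * Real.exp ((T + r - t) / B) := mul_nonneg (by linarith) this.le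
            linarith
          have h2 : 1 + |t| ≤ (1 + V) * (1 + (t - V)) := by
            have h3 : |t| ≤ V + (t - V) := by
              rw [abs_le]; constructor <;> linarith
            nlinarith
          have h4 := key (t - V) (by linarith)
          have h5 := om_pos c (T + r) (V - r) B t
          calc g t * om c (T + r) (V - r) B t ≤ (K * ((1 + V) * (1 + (t - V)))) *
                Real.exp (-(c * Real.exp ((r + (t - V)) / B))) := by
                refine mul_le_mul ((hg t).trans (mul_le_mul_of_nonneg_left h2 hK)) h1 h5.le ?_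
                exact mul_nonneg hK (mul_nonneg (by linarith) (by linarith))
            _ = K * (1 + V) * ((1 + (t - V)) * Real.exp (-(c * Real.exp ((r + (t - V)) / B)))) := by ring
            _ ≤ K * (1 + V) * (Real.exp (-(E / 2)) * Real.exp (-(t - V))) := by
                gcongr
            _ = _ := by
                rw [show -(t - V) = V + -1 * t by ring, Real.exp_add]; ring
      _ = ENNReal.ofReal (∫ t in Ioi V, K * (1 + V) * Real.exp (-(E / 2)) * Real.exp V * Real.exp (-1 * t)) := by
          rw [ofReal_integral_eq_lintegral_ofReal (i2.const_mul _)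
            (Filter.Eventually.of_forall fun t => by
              simp only [Pi.zero_apply]
              positivity)]
      _ = _ := by
          rw [integral_const_mul, i1]
          congr 1
          rw [neg_div_neg_eq, div_one, mul_assoc, ← Real.exp_add]
          simp
  have e3 : ∫⁻ t in Ioc T V, ENNReal.ofReal (g t * om c (T + r) (V - r) B t) ≤
      ENNReal.ofReal (∫ t in T..V, g t) := by
    rw [intervalIntegral.integral_of_le hTV, ofReal_integral_eq_lintegral_ofReal
      ((hgc.intervalIntegrable T V).1) (Filter.Eventually.of_forall fun t => hg0 t)]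
    refine lintegral_mono fun t => ENNReal.ofReal_le_ofReal ?_
    exact mul_le_of_le_one_right (hg0 t) (om_le_one (by linarith) _ _ _ _)
  have hu : (univ : Set ℝ) = (Iic T ∪ Ioc T V) ∪ Ioi V := by
    rw [Iic_union_Ioc_eq_Iic hTV, Iic_union_Ioi]
  rw [← setLIntegral_univ, hu]
  refine (lintegral_union_le _ _ _).trans ?_
  refine (add_le_add_left (lintegral_union_le _ _ _) _).trans ?_
  refine (add_le_add (add_le_add e1 e3) e2).trans (le_of_eq ?_)
  have hI : 0 ≤ ∫ t in T..V, g t := intervalIntegral.integral_nonneg hTV fun t _ => hg0 t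
  have hX : 0 ≤ K * (1 + V) * Real.exp (-(E / 2)) := by positivity
  rw [← ENNReal.ofReal_add hX hI, ← ENNReal.ofReal_add (by positivity) hX]
  congr 1
  ring

end Pool.Agent.K7.H50.MZ
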