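import Pool.Agent.K7.H50.MZ.Hip
import Pool.Agent.K7.H50.MZ.Wt
import Pool.Agent.R313.FM.Main

set_option autoImplicit false

/-! The weighted functions `(s-1)/s (ζ(s) - Q(s)) w(s)`. -/

namespace Pool.Agent.K7.H50.MZ

open MeasureTheory Complex Set Filter Topology Pool.Agent.H306R2 Pool.Agent.W184 Pool.Agent.R313.FM
open scoped ENNReal

/-- the weighted difference -/
noncomputable def Ph (Q : ℂ → ℂ) (a b B : ℝ) (s : ℂ) : ℂ := (Zt s - (s - 1) * Q s) / s * wt a b B s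

lemma Ph_diff {Q : ℂ → ℂ} (hQ : Differentiable ℂ Q) (a b B : ℝ) {s : ℂ} (hs : 0 < s.re) :
    DifferentiableAt ℂ (Ph Q a b B) s := by
  have h1 := Zt_differentiableAt hs
  have h2 : s ≠ 0 := by
    rintro rfl; simp at hs
  have h3 := (wt_diff a b B) s
  have h4 := hQ s
  unfold Ph
  exact ((h1.sub ((differentiableAt_id.sub (differentiableAt_const _)).mul h4)).div differentiableAt_id h2).mul h3

lemma Ph_eq {Q : ℂ → ℂ} (a b B : ℝ) {s : ℂ} (hs : 0 < s.re) (h1 : s ≠ 1) :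
    ‖Ph Q a b B s‖ = ‖riemannZeta s - Q s‖ * ‖(s - 1) / s‖ * ‖wt a b B s‖ := by
  unfold Ph
  rw [norm_mul, ← zeta_eq_pos hs h1, ← mul_sub, nrm_swap]

lemma ratio_le {s : ℂ} (hs : 1 / 2 ≤ s.re) : ‖(s - 1) / s‖ ≤ 1 := by
  have h0 : 0 < ‖s‖ := lt_of_lt_of_le (by linarith) (Complex.re_le_norm s)
  rw [norm_div, div_le_one h0]
  have e1 : ‖s - 1‖ ^ 2 ≤ ‖s‖ ^ 2 := by
    rw [Complex.sq_norm, Complex.sq_norm, Complex.normSq_apply, Complex.normSq_apply]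
    simp
    nlinarith
  exact (abs_le_of_sq_le_sq' e1 (norm_nonneg _)).2

lemma cos_c {x B W : ℝ} (hB : 0 < B) (h1 : 1 / 2 ≤ x) (h2 : x ≤ 1 / 2 + W) (hW : W ≤ B) :
    1 / 2 ≤ Real.cos ((x - 1 / 2) / B) := by
  refine cos_half ?_
  rw [abs_of_nonneg (div_nonneg (by linarith) hB.le), div_le_one hB]
  linarith

lemma Ph_bdd {Q : ℂ → ℂ} {C1 : ℝ} (hC1 : 0 ≤ C1) (hQ1 : ∀ z : ℂ, 0 ≤ z.re → ‖Q z‖ ≤ C1) (a b : ℝ) {B : ℝ}
    (hB : 1 ≤ B) : ∃ C : ℝ, ∀ z : ℂ, 1 / 2 ≤ z.re → z.re ≤ 1 / 2 + B → ‖Ph Q a b B z‖ ≤ C := by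
  refine ⟨2 * (3 + C1) * (2 + B) ^ 2 * (Real.exp ((|a| + |b|) / (2 * B)) * (2 * (2 * B) ^ 2 * Real.exp (1 / (2 * B)))),
    fun z h1 h2 => ?_⟩
  have hB0 : 0 < B := by linarith
  have hzn : 1 / 2 ≤ ‖z‖ := h1.trans (Complex.re_le_norm z)
  have hw : ‖wt a b B z‖ = om (Real.cos ((z.re - 1 / 2) / B)) a b B z.im := by
    rw [← wt_norm, Complex.re_add_im]
  have hc := cos_c hB0 h1 h2 le_rfl
  have b0 := om_bdd hc hB0 a b z.im
  have b1 : ‖(Zt z - (z - 1) * Q z) / z‖ ≤ 2 * (3 + C1) * (‖z‖ + 1) ^ 2 := by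
    rw [norm_div, div_le_iff₀ (by linarith)]
    have a1 := Zt_norm_le h1
    have a2 : ‖(z - 1) * Q z‖ ≤ (‖z‖ + 1) * C1 := by
      rw [norm_mul]
      have := norm_sub_le z 1
      rw [norm_one] at this
      exact mul_le_mul this (hQ1 z (by linarith)) (norm_nonneg _) (by positivity)
    have a3 := norm_sub_le (Zt z) ((z - 1) * Q z)
    have a4 : (‖z‖ + 1) * C1 ≤ (‖z‖ + 1) ^ 2 * C1 := by
      have : ‖z‖ + 1 ≤ (‖z‖ + 1) ^ 2 := by nlinarith [norm_nonneg z]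
      exact mul_le_mul_of_nonneg_right this hC1
    have a5 : (3 + C1) * (‖z‖ + 1) ^ 2 ≤ 2 * (3 + C1) * (‖z‖ + 1) ^ 2 * ‖z‖ := by
      have : 0 ≤ (3 + C1) * (‖z‖ + 1) ^ 2 := by positivity
      nlinarith
    nlinarith
  have b2 : ‖z‖ + 1 ≤ (2 + B) * (1 + |z.im|) := by
    have h3 := Complex.norm_le_abs_re_add_abs_im z
    rw [abs_of_nonneg (by linarith : 0 ≤ z.re)] at h3
    nlinarith [abs_nonneg z.im, mul_nonneg hB0.le (abs_nonneg z.im)]
  have b3 : (‖z‖ + 1) ^ 2 ≤ (2 + B) ^ 2 * (1 + |z.im|) ^ 2 := by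
    rw [← mul_pow]
    exact pow_le_pow_left₀ (by positivity) b2 2
  unfold Ph
  rw [norm_mul, hw]
  have hom := om_pos (Real.cos ((z.re - 1 / 2) / B)) a b B z.im
  calc ‖(Zt z - (z - 1) * Q z) / z‖ * om (Real.cos ((z.re - 1 / 2) / B)) a b B z.im ≤
      (2 * (3 + C1) * ((2 + B) ^ 2 * (1 + |z.im|) ^ 2)) * om (Real.cos ((z.re - 1 / 2) / B)) a b B z.im := by
        refine mul_le_mul_of_nonneg_right (b1.trans ?_) hom.le
        gcongr
    _ = 2 * (3 + C1) * (2 + B) ^ 2 * ((1 + |z.im|) ^ 2 * om (Real.cos ((z.re - 1 / 2) / B)) a b B z.im) := by ring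
    _ ≤ _ := by gcongr

/-- upper bound for the line integrals -/
lemma LM_le {Q : ℂ → ℂ} {a b B x : ℝ} (hx : 1 / 2 ≤ x) (hx1 : x ≠ 1) :
    LM (Ph Q a b B) x ≤ ∫⁻ t : ℝ, ENNReal.ofReal (dn Q x t * om (Real.cos ((x - 1 / 2) / B)) a b B t) := by
  unfold LM
  refine lintegral_mono fun t => ?_
  have hre : ((x : ℂ) + t * I).re = x := by simp
  rw [← ofReal_norm, Ph_eq a b B (by rw [hre]; linarith) (by
    intro h
    have := congrArg Complex.re h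
    rw [hre] at this
    exact hx1 (by simpa using this)), wt_norm]
  refine ENNReal.ofReal_le_ofReal ?_
  have h1 := ratio_le (s := (x : ℂ) + t * I) (by rw [hre]; exact hx)
  have h2 := om_pos (Real.cos ((x - 1 / 2) / B)) a b B t
  unfold dn
  refine mul_le_mul_of_nonneg_right ?_ h2.le
  exact mul_le_of_le_one_right (norm_nonneg _) h1

/-- lower bound for the integrand near the critical line -/
lemma Ph_ge {Q : ℂ → ℂ} {a b B Δ t : ℝ} (h0 : 0 ≤ Δ) (h1 : 8 * Δ ≤ 1) :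
    (1 - 8 * Δ) * dn Q (1 / 2 + Δ) t * om (Real.cos (Δ / B)) a b B t ≤
      ‖Ph Q a b B (((1 / 2 + Δ : ℝ) : ℂ) + t * I)‖ := by
  have hre : (((1 / 2 + Δ : ℝ) : ℂ) + t * I).re = 1 / 2 + Δ := by simp
  rw [Ph_eq a b B (by rw [hre]; linarith) (by
    intro h
    have := congrArg Complex.re h
    rw [hre] at this
    have h3 : (1 / 2 + Δ : ℝ) = 1 := by simpa using this
    linarith), wt_norm]
  have h2 := norm_ratio_ge (Δ := Δ) (t := t) h0 h1
  have e3 : (((1 / 2 : ℝ) : ℂ) + (Δ : ℂ) + t * I) = (((1 / 2 + Δ : ℝ) : ℂ) + t * I) := by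
    push_cast; ring
  rw [e3] at h2
  have e4 : (1 / 2 + Δ - 1 / 2) / B = Δ / B := by ring
  rw [e4]
  have h3 := om_pos (Real.cos (Δ / B)) a b B t
  unfold dn
  refine mul_le_mul_of_nonneg_right ?_ h3.le
  rw [mul_comm]
  exact mul_le_mul_of_nonneg_left h2 (norm_nonneg _)

/-- far to the right -/
lemma LM_far {Q : ℂ → ℂ} {a b B x N C2 : ℝ} (hx : 2 ≤ x) (hxB : x ≤ 1 / 2 + B) (hB : 0 < B) (hab : a ≤ b)
    (hN : 1 ≤ N) (hC2 : 0 ≤ C2)
    (hQ2 : ∀ z : ℂ, 2 ≤ z.re → ‖riemannZeta z - Q z‖ * N ^ z.re ≤ C2 * N ^ 2) :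
    LM (Ph Q a b B) x ≤ ENNReal.ofReal (C2 * N ^ (2 - x) * (b - a + 4 * B)) := by
  refine (LM_le (by linarith) (by linarith)).trans ?_
  have hc := cos_c hB (by linarith) hxB le_rfl
  have hN0 : 0 < N := by linarith
  have hNp : 0 ≤ C2 * N ^ (2 - x) := by positivity
  calc ∫⁻ t : ℝ, ENNReal.ofReal (dn Q x t * om (Real.cos ((x - 1 / 2) / B)) a b B t) ≤
      ∫⁻ t : ℝ, ENNReal.ofReal (C2 * N ^ (2 - x)) * ENNReal.ofReal (om (Real.cos ((x - 1 / 2) / B)) a b B t) := by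
        refine lintegral_mono fun t => ?_
        rw [← ENNReal.ofReal_mul hNp]
        refine ENNReal.ofReal_le_ofReal ?_
        refine mul_le_mul_of_nonneg_right ?_ (om_pos _ _ _ _ _).le
        have hre : ((x : ℂ) + t * I).re = x := by simp
        have h1 := hQ2 ((x : ℂ) + t * I) (by rw [hre]; exact hx)
        rw [hre] at h1
        have h2 : 0 < N ^ x := Real.rpow_pos_of_pos hN0 _
        unfold dn
        rw [← le_div_iff₀ h2] at h1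
        refine h1.trans (le_of_eq ?_)
        rw [Real.rpow_sub hN0, mul_div_assoc]
        norm_num
    _ = ENNReal.ofReal (C2 * N ^ (2 - x)) * ∫⁻ t : ℝ, ENNReal.ofReal (om (Real.cos ((x - 1 / 2) / B)) a b B t) := by
        rw [lintegral_const_mul _ (om_cont _ _ _ _).measurable.ennreal_ofReal]
    _ ≤ ENNReal.ofReal (C2 * N ^ (2 - x)) * ENNReal.ofReal (b - a + 4 * B) := by
        gcongr
        exact om_mass hc hB hab
    _ = _ := by rw [← ENNReal.ofReal_mul hNp]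

/-- powers of two between `W` and `2 W` -/
lemma exists_two_pow {x W : ℝ} (hx : 0 < x) (hxW : x ≤ W) : ∃ n : ℕ, W ≤ 2 ^ n * x ∧ 2 ^ n * x ≤ 2 * W := by
  have h1 : 1 ≤ W / x := by rwa [one_le_div hx]
  obtain ⟨n, hn1, hn2⟩ := exists_nat_pow_near h1 (show (1:ℝ) < 2 by norm_num)
  refine ⟨n + 1, ?_, ?_⟩
  · rw [div_lt_iff₀ hx] at hn2
    exact hn2.le
  · rw [le_div_iff₀ hx] at hn1
    rw [pow_succ]
    linarith

end Pool.Agent.K7.H50.MZ
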