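import Pool.Agent.K7.H50.MZ.Dec

set_option autoImplicit false

/-! Comparison of the weighted line integrals. -/

namespace Pool.Agent.K7.H50.MZ

open MeasureTheory Complex Set Filter Topology Pool.Agent.H306R2 Pool.Agent.W184 Pool.Agent.R313.FM
open scoped ENNReal

/-- the zero function -/
noncomputable def ZZf : ℂ → ℂ := fun _ => 0

lemma dn_ZZf (σ t : ℝ) : dn ZZf σ t = zn σ t := by
  unfold dn ZZf zn
  rw [sub_zero]

lemma LM_tri {Q : ℂ → ℂ} (hQ : Differentiable ℂ Q) {a b B x : ℝ} (hx : 1 / 2 ≤ x) :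
    LM (Ph ZZf a b B) x ≤ LM (Ph Q a b B) x +
      ∫⁻ t : ℝ, ENNReal.ofReal (‖Q ((x : ℂ) + t * I)‖ * om (Real.cos ((x - 1 / 2) / B)) a b B t) := by
  have hc : Continuous fun t : ℝ => (x : ℂ) + t * I := by fun_prop
  have hm : Measurable fun t : ℝ => ENNReal.ofReal (‖Q ((x : ℂ) + t * I)‖ * om (Real.cos ((x - 1 / 2) / B)) a b B t) :=
    (((hQ.continuous.comp hc).norm).mul (om_cont _ _ _ _)).measurable.ennreal_ofReal
  unfold LM
  rw [← lintegral_add_right _ hm]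
  refine lintegral_mono fun t => ?_
  rw [← ofReal_norm, ← ofReal_norm, ← ENNReal.ofReal_add (norm_nonneg _)
    (mul_nonneg (norm_nonneg _) (om_pos _ _ _ _ _).le)]
  refine ENNReal.ofReal_le_ofReal ?_
  set s : ℂ := (x : ℂ) + t * I with hs
  have hre : s.re = x := by simp [hs]
  have e1 : Ph ZZf a b B s = Ph Q a b B s + (s - 1) / s * Q s * wt a b B s := by
    unfold Ph ZZf
    ring
  rw [e1]
  refine (norm_add_le _ _).trans (add_le_add_right ?_ _)
  rw [norm_mul, norm_mul, hs, wt_norm, ← hs]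
  refine mul_le_mul_of_nonneg_right ?_ (om_pos _ _ _ _ _).le
  exact mul_le_of_le_one_left (norm_nonneg _) (ratio_le (by rw [hre]; exact hx))

/-- the inner mean square -/
lemma inner_le {Q : ℂ → ℂ} (hQ : Differentiable ℂ Q) {g : ℝ → ℝ} (hgc : Continuous g) (hg0 : ∀ t, 0 ≤ g t)
    {a b B r Δ : ℝ} (hB : 0 < B) (h0 : 0 ≤ Δ) (h1 : 8 * Δ ≤ 1) (hab : a + r ≤ b - r)
    (hr : 0 ≤ 1 - 2 * Real.exp (-(r / B)))
    (hg : ∀ t, g t ≤ zn (1 / 2 + Δ) t + dn Q (1 / 2 + Δ) t) :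
    ENNReal.ofReal ((1 - 8 * Δ) * (1 - 2 * Real.exp (-(r / B))) * ∫ t in (a + r)..(b - r), g t) ≤
      LM (Ph Q a b B) (1 / 2 + Δ) + LM (Ph ZZf a b B) (1 / 2 + Δ) := by
  set κ := (1 - 8 * Δ) * (1 - 2 * Real.exp (-(r / B))) with hκ
  have hκ0 : 0 ≤ κ := mul_nonneg (by linarith) hr
  have hpos : 0 < 1 / 2 + Δ := by linarith
  have hcF : ∀ R : ℂ → ℂ, Differentiable ℂ R → Continuous fun t : ℝ => Ph R a b B (((1 / 2 + Δ : ℝ) : ℂ) + t * I) := by
    intro R hR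
    rw [continuous_iff_continuousAt]
    intro t
    have h2 : ContinuousAt (Ph R a b B) (((1 / 2 + Δ : ℝ) : ℂ) + t * I) :=
      (Ph_diff hR a b B (by simpa using hpos)).continuousAt
    exact ContinuousAt.comp (f := fun t : ℝ => ((1 / 2 + Δ : ℝ) : ℂ) + t * I) h2 (by fun_prop)
  have hQc := hcF Q hQ
  have hZc := hcF ZZf (differentiable_const _)
  rw [intervalIntegral.integral_of_le hab, ← integral_const_mul,
    ofReal_integral_eq_lintegral_ofReal (((hgc.intervalIntegrable _ _).1).const_mul κ)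
      (Eventually.of_forall fun t => mul_nonneg hκ0 (hg0 t))]
  unfold LM
  rw [← lintegral_add_left hQc.measurable.enorm]
  refine (setLIntegral_mono (hQc.measurable.enorm.add hZc.measurable.enorm) fun t ht => ?_).trans
    (setLIntegral_le_lintegral _ _)
  simp only [Pi.add_apply]
  rw [← ofReal_norm, ← ofReal_norm, ← ENNReal.ofReal_add (norm_nonneg _) (norm_nonneg _)]
  refine ENNReal.ofReal_le_ofReal ?_
  have a1 := Ph_ge (Q := Q) (a := a) (b := b) (B := B) (t := t) h0 h1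
  have a2 := Ph_ge (Q := ZZf) (a := a) (b := b) (B := B) (t := t) h0 h1
  rw [dn_ZZf] at a2
  have a3 := om_inner (c := Real.cos (Δ / B)) (Real.cos_le_one _) hB ht.1.le ht.2
  have a4 : κ ≤ (1 - 8 * Δ) * om (Real.cos (Δ / B)) a b B t :=
    mul_le_mul_of_nonneg_left a3 (by linarith)
  calc κ * g t ≤ ((1 - 8 * Δ) * om (Real.cos (Δ / B)) a b B t) * (zn (1 / 2 + Δ) t + dn Q (1 / 2 + Δ) t) := by
        refine mul_le_mul a4 (hg t) (hg0 t) (hκ0.trans a4)
    _ = (1 - 8 * Δ) * dn Q (1 / 2 + Δ) t * om (Real.cos (Δ / B)) a b B t +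
        (1 - 8 * Δ) * zn (1 / 2 + Δ) t * om (Real.cos (Δ / B)) a b B t := by ring
    _ ≤ _ := add_le_add a1 a2

/-- upper bound for the integral of a continuous function against the weight -/
lemma LM_win {g : ℝ → ℝ} {B T V r K x : ℝ} (hB : 0 < B) (hT : 0 ≤ T) (hTV : T ≤ V)
    (hE : 4 * B ≤ Real.exp (r / B)) (hx : 1 / 2 ≤ x) (hxB : x ≤ 1 / 2 + B)
    (hK : 0 ≤ K) (hg0 : ∀ t, 0 ≤ g t) (hg : ∀ t, g t ≤ K * (1 + |t|)) (hgc : Continuous g)
    (ht : 2 * K * (1 + V) * Real.exp (-(Real.exp (r / B) / 2)) ≤ 1) :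
    ∫⁻ t : ℝ, ENNReal.ofReal (g t * om (Real.cos ((x - 1 / 2) / B)) (T + r) (V - r) B t) ≤
      ENNReal.ofReal ((∫ t in T..V, g t) + 1) := by
  refine (om_tail (cos_c hB hx hxB le_rfl) hB hT hTV hE hK hg0 hg hgc).trans (ENNReal.ofReal_le_ofReal ?_)
  linarith

end Pool.Agent.K7.H50.MZ
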