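import Pool.Agent.K7.H50.MZ.First

set_option autoImplicit false

/-! The lower bound for the first moment in windows of length `C log log T`: final form. -/

namespace Pool.Agent.K7.H50.MZ

open MeasureTheory Complex Set Filter Topology Pool.Agent.H306R2 Pool.Agent.W184 Pool.Agent.R313.FM
open scoped ENNReal

lemma log16_small {c : ℝ} (hc : 0 < c) : ∀ᶠ U : ℝ in atTop, Real.log (16 * Real.log U) ≤ c * U := by
  have h1 := Real.isLittleO_log_id_atTop.bound (show (0:ℝ) < c / 16 by positivity)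
  have h2 : ∀ᶠ U : ℝ in atTop, Real.log U ≤ c / 16 * U := by
    filter_upwards [h1, eventually_gt_atTop 1] with U h hU
    have hl := Real.log_nonneg hU.le
    simp only [id, Real.norm_eq_abs] at h
    rwa [abs_of_nonneg hl, abs_of_pos (by linarith)] at h
  filter_upwards [h2, eventually_gt_atTop (Real.exp 1)] with U h hU
  have hU0 : 0 < U := lt_trans (Real.exp_pos 1) hU
  have hL1 : 1 < Real.log U := by rwa [Real.lt_log_iff_exp_lt hU0]
  have h3 : Real.log (16 * Real.log U) ≤ 16 * Real.log U := Real.log_le_self (by positivity)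
  linarith

lemma window_cond {B η : ℝ} (hB : 0 < B) (hη : 0 < η) {P : ℝ → Prop} (hP : ∀ᶠ U in atTop, P U) :
    ∃ C : ℝ, 0 < C ∧ ∀ᶠ T : ℝ in atTop, ∀ U : ℝ, C * Real.log (Real.log T) ≤ U →
      P U ∧ 0 ≤ T ∧ 4 * (B * Real.log (8 * Real.log (T + U))) ≤ η * U := by
  refine ⟨8 * B / η, by positivity, ?_⟩
  have hC0 : 0 < 8 * B / η := by positivity
  have hall := hP.and ((log16_small (c := η / (4 * B)) (by positivity)).and (eventually_ge_atTop (4:ℝ)))
  obtain ⟨U1, hU1⟩ := eventually_atTop.1 hall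
  have hll : Tendsto (fun T : ℝ => Real.log (Real.log T)) atTop atTop :=
    Real.tendsto_log_atTop.comp Real.tendsto_log_atTop
  have hCll : Tendsto (fun T : ℝ => 8 * B / η * Real.log (Real.log T)) atTop atTop :=
    hll.const_mul_atTop hC0
  filter_upwards [hCll.eventually_ge_atTop U1, hll.eventually_ge_atTop (Real.log 16), eventually_ge_atTop 4,
    eventually_gt_atTop (Real.exp 1)] with T h1 h2 h3 h4 U hU
  obtain ⟨p1, p2, p3⟩ := hU1 U (h1.trans hU)
  have hT0 : 0 < T := by linarith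
  have hL1 : 1 < Real.log T := by rwa [Real.lt_log_iff_exp_lt hT0]
  have hU0 : 0 < U := by linarith
  refine ⟨p1, hT0.le, ?_⟩
  rcases le_total U T with hUT | hUT
  · have h5 : Real.log (T + U) ≤ 2 * Real.log T := by
      have : T + U ≤ T ^ 2 := by nlinarith
      calc Real.log (T + U) ≤ Real.log (T ^ 2) := Real.log_le_log (by linarith) this
        _ = 2 * Real.log T := by rw [Real.log_pow]; norm_num
    have h6 : 0 < Real.log (T + U) := Real.log_pos (by linarith)
    have h7 : Real.log (8 * Real.log (T + U)) ≤ 2 * Real.log (Real.log T) := by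
      calc Real.log (8 * Real.log (T + U)) ≤ Real.log (16 * Real.log T) :=
            Real.log_le_log (by positivity) (by linarith)
        _ = Real.log 16 + Real.log (Real.log T) := Real.log_mul (by norm_num) (by linarith)
        _ ≤ _ := by linarith
    have h8 : 8 * B * Real.log (Real.log T) ≤ η * U := by
      have := mul_le_mul_of_nonneg_left hU hη.le
      calc 8 * B * Real.log (Real.log T) = η * (8 * B / η * Real.log (Real.log T)) := by field_simp
        _ ≤ _ := this
    calc 4 * (B * Real.log (8 * Real.log (T + U))) ≤ 4 * (B * (2 * Real.log (Real.log T))) := by gcongr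
      _ = 8 * B * Real.log (Real.log T) := by ring
      _ ≤ _ := h8
  · have hlU : 1 < Real.log U := lt_of_lt_of_le hL1 (Real.log_le_log hT0 hUT)
    have h5 : Real.log (T + U) ≤ 2 * Real.log U := by
      have : T + U ≤ U ^ 2 := by nlinarith
      calc Real.log (T + U) ≤ Real.log (U ^ 2) := Real.log_le_log (by linarith) this
        _ = 2 * Real.log U := by rw [Real.log_pow]; norm_num
    have h6 : 0 < Real.log (T + U) := Real.log_pos (by linarith)
    have h7 : Real.log (8 * Real.log (T + U)) ≤ η / (4 * B) * U :=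
      (Real.log_le_log (by positivity) (by linarith)).trans p2
    calc 4 * (B * Real.log (8 * Real.log (T + U))) ≤ 4 * (B * (η / (4 * B) * U)) := by gcongr
      _ = η * U := by field_simp

lemma gg0 : gg 0 = A0 := by
  rw [gg_eq, mul_zero, hI_zero q4_pos, mul_one]

theorem num_cond : Real.exp (-(22 / 5)) * (A0 * (29 / 50) + gg 0) + 1 / 2 * (29 / 25 * (Real.exp (-(2 * (22 / 5))) *
    (A0 * (29 / 50) + gg 0) + gg (2 * (22 / 5))) + (29 / 25 : ℝ)⁻¹ * (A0 * (29 / 50))) < gg (22 / 5) := by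
  have hA := A0_pos
  rw [gg0, gg_eq, gg_eq]
  have e2 : (2:ℝ) * (2 * (22 / 5)) = 88 / 5 := by norm_num
  have e3 : (2:ℝ) * (22 / 5) = 44 / 5 := by norm_num
  have e4 : Real.exp (-(2 * (22 / 5))) = Real.exp (-(22 / 5)) ^ 2 := by
    rw [← Real.exp_nat_mul]; congr 1; norm_num
  rw [e2, e4, e3]
  have a1 := h88
  have a2 := h176
  have a3 := e44
  have a4 := Real.exp_pos (-(22 / 5))
  set E := Real.exp (-(22 / 5)) with hE
  have a5 : E ^ 2 ≤ 0.012278 ^ 2 := pow_le_pow_left₀ a4.le a3 2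
  have key : E * (29 / 50 + 1) + 1 / 2 * (29 / 25 * (E ^ 2 * (29 / 50 + 1) + hI q4 (88 / 5)) +
      (29 / 25 : ℝ)⁻¹ * (29 / 50)) < hI q4 (44 / 5) := by
    have c1 : E * (29 / 50 + 1) + 1 / 2 * (29 / 25 * (E ^ 2 * (29 / 50 + 1) + hI q4 (88 / 5)) +
      (29 / 25 : ℝ)⁻¹ * (29 / 50)) ≤ 0.012278 * (29 / 50 + 1) + 1 / 2 * (29 / 25 * (0.012278 ^ 2 * (29 / 50 + 1) +
        0.442531) + (29 / 25 : ℝ)⁻¹ * (29 / 50)) := by gcongr
    have c2 : 0.012278 * (29 / 50 + 1) + 1 / 2 * (29 / 25 * (0.012278 ^ 2 * (29 / 50 + 1) +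
        0.442531) + (29 / 25 : ℝ)⁻¹ * (29 / 50)) < (0.526255 : ℝ) := by norm_num
    linarith
  have := mul_lt_mul_of_pos_left key hA
  refine lt_of_eq_of_lt ?_ this
  ring

theorem first_loglog : ∃ C : ℝ, 0 < C ∧ ∀ᶠ T : ℝ in atTop, ∀ U : ℝ, C * Real.log (Real.log T) ≤ U →
    A0 * (29 / 50) * (U * Real.log U ^ ((1:ℝ) / 4)) ≤ ∫ t in T..(T + U), zn (1 / 2) t := by
  obtain ⟨B, η, hB, hη, h⟩ := core (δ := 22 / 5) (l := 29 / 25) (c := A0 * (29 / 50)) (by norm_num) (by norm_num) num_cond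
  obtain ⟨C, hC, h2⟩ := window_cond hB hη h
  refine ⟨C, hC, ?_⟩
  filter_upwards [h2] with T hT U hU
  obtain ⟨h3, h4, h5⟩ := hT U hU
  have h6 := h3 T h4 h5
  unfold mm at h6
  rw [show (kh ^ 2 : ℝ) = 1 / 4 by unfold kh; norm_num] at h6
  exact h6

end Pool.Agent.K7.H50.MZ
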